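import Mathlib

set_option autoImplicit false

open scoped Classical
open Finset

namespace Pool.Agent.H680R2

/-- indicator of a proposition with values in a field -/
noncomputable def ind (F : Type) [Field F] (P : Prop) : F := if P then 1 else 0

section ind
variable {F : Type} [Field F]

theorem ind_true {P : Prop} (h : P) : ind F P = 1 := by simp [ind, h]

theorem ind_false {P : Prop} (h : ¬ P) : ind F P = 0 := by simp [ind, h]

theorem ind_and (P Q : Prop) : ind F (P ∧ Q) = ind F P * ind F Q := by
  by_cases hP : P <;> by_cases hQ : Q <;> simp [ind, hP, hQ]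

theorem ind_congr {P Q : Prop} (h : P ↔ Q) : ind F P = ind F Q := by
  rw [propext h]

theorem ind_not (P : Prop) : ind F (¬ P) = 1 - ind F P := by
  by_cases hP : P <;> simp [ind, hP]

theorem ind_forall {κ : Type} [Fintype κ] (P : κ → Prop) :
    ind F (∀ x, P x) = ∏ x, ind F (P x) := by
  by_cases h : ∀ x, P x
  · rw [ind_true h]
    symm
    apply Finset.prod_eq_one
    intro x _
    exact ind_true (h x)
  · rw [ind_false h]
    push Not at h
    obtain ⟨x, hx⟩ := h
    exact (Finset.prod_eq_zero (Finset.mem_univ x) (ind_false hx)).symm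

theorem ind_option_sum {B : Type} [Fintype B] (o : Option B) :
    ind F (o = none) + ∑ b, ind F (o = some b) = 1 := by
  cases o with
  | none =>
    simp [ind]
  | some c =>
    simp [ind]

theorem ind_none {B : Type} [Fintype B] (o : Option B) :
    ind F (o = none) = 1 - ∑ b, ind F (o = some b) := by
  rw [← ind_option_sum o]; ring

end ind

/-- `T` covers the finite set `s` of pairs. -/
def Cov {A B : Type} (T : A ≃. B) (s : Finset (A × B)) : Prop := ∀ x ∈ s, T x.1 = some x.2

/-- The row condition in degree `D`. -/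
def IsRow (F : Type) [Field F] (D : ℕ) {A B ι : Type} [Fintype ι] (w : ι → F)
    (T : ι → A ≃. B) : Prop :=
  ∀ s : Finset (A × B), s.card < D → ∀ a : A,
    ∑ i, w i * (ind F (Cov (T i) s) * ind F (T i a = none)) = 0

/-- A signed family of partial matchings which looks perfect in degree `D`. -/
def HasDesign (F : Type) [Field F] (D : ℕ) (A B : Type) : Prop :=
  ∃ (ι : Type) (_ : Fintype ι) (w : ι → F) (T : ι → A ≃. B),
    ∑ i, w i = 1 ∧ IsRow F D w T ∧ IsRow F D w (fun i => (T i).symm)

section basic
variable {F : Type} [Field F] {D : ℕ} {A B C : Type}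

theorem IsRow.family {ι : Type} [Fintype ι] {w : ι → F} {T : ι → A ≃. B}
    (h : IsRow F D w T) {κ : Type} [Fintype κ] (hκ : Fintype.card κ < D)
    (α : κ → A) (β : κ → B) (a : A) :
    ∑ i, w i * (ind F (∀ x, T i (α x) = some (β x)) * ind F (T i a = none)) = 0 := by
  have h1 := h (Finset.univ.image (fun x => (α x, β x)))
    (lt_of_le_of_lt Finset.card_image_le (by simpa using hκ)) a
  rw [← h1]
  refine Finset.sum_congr rfl (fun i _ => ?_)
  congr 2
  apply ind_congr
  simp [Cov]

theorem IsRow.mono {ι : Type} [Fintype ι] {w : ι → F} {T : ι → A ≃. B} {D' : ℕ}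
    (h : IsRow F D w T) (hD : D' ≤ D) : IsRow F D' w T :=
  fun s hs a => h s (lt_of_lt_of_le hs hD) a

theorem HasDesign.mono {D' : ℕ} (h : HasDesign F D A B) (hD : D' ≤ D) : HasDesign F D' A B := by
  obtain ⟨ι, _, w, T, h1, h2, h3⟩ := h
  exact ⟨ι, _, w, T, h1, h2.mono hD, h3.mono hD⟩

theorem HasDesign.symm (h : HasDesign F D A B) : HasDesign F D B A := by
  obtain ⟨ι, _, w, T, h1, h2, h3⟩ := h
  refine ⟨ι, _, w, fun i => (T i).symm, h1, h3, ?_⟩
  simpa using h2

theorem HasDesign.ofEquiv (e : A ≃ B) : HasDesign F D A B := by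
  refine ⟨Unit, inferInstance, fun _ => 1, fun _ => e.toPEquiv, by simp, ?_, ?_⟩
  · intro s _ a
    simp [ind_false]
  · intro s _ a
    have : (e.toPEquiv).symm a ≠ none := by
      rw [← Equiv.toPEquiv_symm]; simp
    simp [ind_false, this]

theorem ind_trans_none [Fintype B] (T : A ≃. B) (U : B ≃. C) (a : A) :
    ind F ((T.trans U) a = none) =
      ind F (T a = none) + ∑ b, ind F (T a = some b) * ind F (U b = none) := by
  have h : (T.trans U) a = (T a).bind U := rfl
  rw [h]
  cases hT : T a with
  | none => simp [ind]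
  | some c =>
    rw [Finset.sum_eq_single c]
    · simp [ind]
    · intro b _ hb
      rw [ind_false (P := some c = some b) (by simpa using fun h => hb h.symm), zero_mul]
    · simp

theorem ind_trans_some [Fintype B] (T : A ≃. B) (U : B ≃. C) (a : A) (c : C) :
    ind F ((T.trans U) a = some c) =
      ∑ b, ind F (T a = some b) * ind F (U b = some c) := by
  have h : (T.trans U) a = (T a).bind U := rfl
  rw [h]
  cases hT : T a with
  | none => simp [ind]
  | some d =>
    rw [Finset.sum_eq_single d]
    · simp [ind]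
    · intro b _ hb
      rw [ind_false (P := some d = some b) (by simpa using fun h => hb h.symm), zero_mul]
    · simp

theorem ind_cov_trans [Fintype B] (T : A ≃. B) (U : B ≃. C) (s : Finset (A × C)) :
    ind F (Cov (T.trans U) s) =
      ∑ β : {x // x ∈ s} → B, ind F (∀ x, T x.1.1 = some (β x)) *
        ind F (∀ x : {x // x ∈ s}, U (β x) = some x.1.2) := by
  have h1 : ind F (Cov (T.trans U) s)
      = ind F (∀ x : {x // x ∈ s}, (T.trans U) x.1.1 = some x.1.2) := by
    apply ind_congr
    simp [Cov]
  rw [h1, ind_forall]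
  simp only [ind_trans_some]
  rw [Finset.prod_univ_sum, Fintype.piFinset_univ]
  refine Finset.sum_congr rfl (fun β _ => ?_)
  rw [ind_forall, ind_forall, Finset.prod_mul_distrib]

theorem IsRow.trans [Fintype B] {ι κ : Type} [Fintype ι] [Fintype κ] {w : ι → F}
    {T : ι → A ≃. B} {v : κ → F} {U : κ → B ≃. C}
    (h : IsRow F D w T) (h' : IsRow F D v U) :
    IsRow F D (fun x : ι × κ => w x.1 * v x.2) (fun x => (T x.1).trans (U x.2)) := by
  intro s hs a
  have hcard : Fintype.card {x // x ∈ s} < D := by simpa using hs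
  have key : ∀ (i : ι) (k : κ),
      (w i * v k) * (ind F (Cov ((T i).trans (U k)) s) * ind F (((T i).trans (U k)) a = none))
      = ∑ β : {x // x ∈ s} → B,
        ((w i * (ind F (∀ x, T i x.1.1 = some (β x)) * ind F (T i a = none))) *
          (v k * ind F (∀ x : {x // x ∈ s}, U k (β x) = some x.1.2))
        + ∑ b, (w i * (ind F (∀ x, T i x.1.1 = some (β x)) * ind F (T i a = some b))) *
          (v k * (ind F (∀ x : {x // x ∈ s}, U k (β x) = some x.1.2) * ind F (U k b = none)))) := by
    intro i k
    rw [ind_cov_trans, ind_trans_none, Finset.sum_mul, Finset.mul_sum]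
    refine Finset.sum_congr rfl (fun β _ => ?_)
    rw [mul_add, mul_add, Finset.mul_sum, Finset.mul_sum]
    congr 1
    · ring
    · refine Finset.sum_congr rfl (fun b _ => ?_)
      ring
  rw [Fintype.sum_prod_type]
  simp only [key]
  have h2 : ∀ i : ι, ∑ k : κ, ∑ β : {x // x ∈ s} → B,
        ((w i * (ind F (∀ x, T i x.1.1 = some (β x)) * ind F (T i a = none))) *
          (v k * ind F (∀ x : {x // x ∈ s}, U k (β x) = some x.1.2))
        + ∑ b, (w i * (ind F (∀ x, T i x.1.1 = some (β x)) * ind F (T i a = some b))) *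
          (v k * (ind F (∀ x : {x // x ∈ s}, U k (β x) = some x.1.2) * ind F (U k b = none))))
      = ∑ β : {x // x ∈ s} → B,
          (w i * (ind F (∀ x, T i x.1.1 = some (β x)) * ind F (T i a = none))) *
            ∑ k : κ, (v k * ind F (∀ x : {x // x ∈ s}, U k (β x) = some x.1.2)) := by
    intro i
    rw [Finset.sum_comm]
    refine Finset.sum_congr rfl (fun β _ => ?_)
    rw [Finset.sum_add_distrib, ← Finset.mul_sum, Finset.sum_comm]
    have : ∀ b : B, ∑ k : κ,
        (w i * (ind F (∀ x, T i x.1.1 = some (β x)) * ind F (T i a = some b))) *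
          (v k * (ind F (∀ x : {x // x ∈ s}, U k (β x) = some x.1.2) * ind F (U k b = none)))
        = 0 := by
      intro b
      rw [← Finset.mul_sum, h'.family hcard β (fun x => x.1.2) b, mul_zero]
    simp only [this, Finset.sum_const_zero, add_zero]
  simp only [h2]
  rw [Finset.sum_comm]
  apply Finset.sum_eq_zero
  intro β _
  rw [← Finset.sum_mul, h.family hcard (fun x => x.1.1) β a, zero_mul]

theorem HasDesign.trans [Fintype B] (h : HasDesign F D A B) (h' : HasDesign F D B C) :
    HasDesign F D A C := by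
  obtain ⟨ι, _, w, T, h1, h2, h3⟩ := h
  obtain ⟨κ, _, v, U, h1', h2', h3'⟩ := h'
  refine ⟨ι × κ, inferInstance, fun x => w x.1 * v x.2, fun x => (T x.1).trans (U x.2), ?_,
    h2.trans h2', ?_⟩
  · rw [Fintype.sum_prod_type]
    simp only [← Finset.mul_sum, h1', mul_one, h1]
  · have h4 := h3'.trans h3
    intro s hs a
    have h5 := h4 s hs a
    rw [← h5]
    refine Fintype.sum_equiv (Equiv.prodComm ι κ) _ _ (fun x => ?_)
    simp only [Equiv.prodComm_apply, Prod.fst_swap, Prod.snd_swap]
    rw [mul_comm (w x.1) (v x.2)]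
    rfl

/-! ### Restricting tests to a block -/

/-- The part of the test `s` lying in a block. -/
noncomputable def restr {A' B' : Type} [Fintype A] [Fintype B] (eA : A → A') (eB : B → B')
    (s : Finset (A' × B')) : Finset (A × B) :=
  Finset.univ.filter (fun x => (eA x.1, eB x.2) ∈ s)

theorem mem_restr {A' B' : Type} [Fintype A] [Fintype B] (eA : A → A') (eB : B → B')
    (s : Finset (A' × B')) (x : A × B) : x ∈ restr eA eB s ↔ (eA x.1, eB x.2) ∈ s := by
  simp [restr]

theorem card_restr_le {A' B' : Type} [Fintype A] [Fintype B] {eA : A → A'} {eB : B → B'}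
    (hA : Function.Injective eA) (hB : Function.Injective eB)
    (s : Finset (A' × B')) : (restr eA eB s).card ≤ s.card := by
  apply Finset.card_le_card_of_injOn (fun x => (eA x.1, eB x.2))
  · intro x hx
    exact (mem_restr eA eB s x).1 hx
  · intro x _ y _ hxy
    simp only [Prod.mk.injEq] at hxy
    exact Prod.ext (hA hxy.1) (hB hxy.2)

theorem exists_of_card_restr {A' B' : Type} [Fintype A] [Fintype B] {eA : A → A'} {eB : B → B'}
    (hA : Function.Injective eA) (hB : Function.Injective eB)
    (s : Finset (A' × B')) (h : s.card ≤ (restr eA eB s).card) (y : A' × B') (hy : y ∈ s) :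
    ∃ x : A × B, (eA x.1, eB x.2) = y := by
  have hinj : Set.InjOn (fun x : A × B => (eA x.1, eB x.2)) (restr eA eB s : Set (A × B)) := by
    intro x _ y _ hxy
    simp only [Prod.mk.injEq] at hxy
    exact Prod.ext (hA hxy.1) (hB hxy.2)
  have h1 : (restr eA eB s).image (fun x => (eA x.1, eB x.2)) = s := by
    apply Finset.eq_of_subset_of_card_le
    · intro z hz
      obtain ⟨x, hx, rfl⟩ := Finset.mem_image.1 hz
      exact (mem_restr eA eB s x).1 hx
    · rw [Finset.card_image_of_injOn hinj]
      exact h
  rw [← h1] at hy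
  obtain ⟨x, _, hx⟩ := Finset.mem_image.1 hy
  exact ⟨x, hx⟩

/-! ### Sums with a common part -/

/-- `T` together with the identity of `C`. -/
def addId (C : Type) (T : A ≃. B) : (A ⊕ C) ≃. (B ⊕ C) where
  toFun := fun x => match x with
    | Sum.inl a => (T a).map Sum.inl
    | Sum.inr c => some (Sum.inr c)
  invFun := fun y => match y with
    | Sum.inl b => (T.symm b).map Sum.inl
    | Sum.inr c => some (Sum.inr c)
  inv := by
    intro x y
    rcases x with a | c <;> rcases y with b | c'
    · simp [PEquiv.eq_some_iff]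
    · simp
    · simp
    · simp [eq_comm]

theorem addId_symm (C : Type) (T : A ≃. B) : (addId C T).symm = addId C T.symm := by
  ext x y
  rcases x with a | c <;> rfl

theorem cov_addId [Fintype A] [Fintype B] (C : Type) (T : A ≃. B)
    (s : Finset ((A ⊕ C) × (B ⊕ C))) :
    Cov (addId C T) s ↔ (∀ x ∈ s, (¬ ∃ a b, x = (Sum.inl a, Sum.inl b)) →
      ∃ c, x = (Sum.inr c, Sum.inr c)) ∧ Cov T (restr Sum.inl Sum.inl s) := by
  constructor
  · intro h
    refine ⟨?_, ?_⟩
    · rintro ⟨x, y⟩ hx hne
      have h1 := h _ hx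
      rcases x with a | c
      · rcases y with b | c
        · exact absurd ⟨a, b, rfl⟩ hne
        · exfalso
          simp only [addId, PEquiv.coe_mk] at h1
          simp at h1
      · simp only [addId, PEquiv.coe_mk] at h1
        refine ⟨c, ?_⟩
        simp only [Option.some.injEq] at h1
        rw [← h1]
    · intro x hx
      rw [mem_restr] at hx
      have h1 := h _ hx
      simp only [addId, PEquiv.coe_mk] at h1
      simpa using h1
  · rintro ⟨h1, h2⟩ ⟨x, y⟩ hx
    by_cases hne : ∃ a b, (x, y) = ((Sum.inl a : A ⊕ C), (Sum.inl b : B ⊕ C))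
    · obtain ⟨a, b, hab⟩ := hne
      simp only [Prod.mk.injEq] at hab
      obtain ⟨rfl, rfl⟩ := hab
      have h3 := h2 (a, b) ((mem_restr _ _ _ _).2 hx)
      simp only at h3
      simp only [addId, PEquiv.coe_mk, h3, Option.map_some]
    · obtain ⟨c, hc⟩ := h1 _ hx hne
      simp only [Prod.mk.injEq] at hc
      obtain ⟨rfl, rfl⟩ := hc
      rfl

theorem IsRow.addId [Fintype A] [Fintype B] {ι : Type} [Fintype ι] {w : ι → F} {T : ι → A ≃. B}
    (h : IsRow F D w T) (C : Type) : IsRow F D w (fun i => addId C (T i)) := by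
  intro s hs a
  rcases a with a | c
  · have h1 := h (restr Sum.inl Sum.inl s)
      (lt_of_le_of_lt (card_restr_le Sum.inl_injective Sum.inl_injective s) hs) a
    have h2 : ∀ i, w i * (ind F (Cov (H680R2.addId C (T i)) s) *
        ind F (H680R2.addId C (T i) (Sum.inl a) = none)) =
        ind F (∀ x ∈ s, (¬ ∃ a b, x = (Sum.inl a, Sum.inl b)) →
          ∃ c, x = (Sum.inr c, Sum.inr c)) *
        (w i * (ind F (Cov (T i) (restr Sum.inl Sum.inl s)) * ind F (T i a = none))) := by
      intro i
      rw [ind_congr (cov_addId C (T i) s), ind_and]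
      have h3 : H680R2.addId C (T i) (Sum.inl a) = none ↔ T i a = none := by
        simp only [H680R2.addId, PEquiv.coe_mk]
        simp
      rw [ind_congr h3]
      ring
    simp only [h2]
    rw [← Finset.mul_sum, h1, mul_zero]
  · apply Finset.sum_eq_zero
    intro i _
    rw [ind_false (P := H680R2.addId C (T i) (Sum.inr c) = none) (by
      show ¬ (some (Sum.inr c) = none)
      simp)]
    simp

theorem HasDesign.addId [Fintype A] [Fintype B] (h : HasDesign F D A B) (C : Type) :
    HasDesign F D (A ⊕ C) (B ⊕ C) := by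
  obtain ⟨ι, _, w, T, h1, h2, h3⟩ := h
  refine ⟨ι, _, w, fun i => H680R2.addId C (T i), h1, h2.addId C, ?_⟩
  simp only [addId_symm]
  exact h3.addId C

end basic

end Pool.Agent.H680R2
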