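import Mathlib
import Pool.Agent.H680R2.PhpDesign

set_option autoImplicit false

open scoped Classical
open Finset

namespace Pool.Agent.H680R2

variable {F : Type} [Field F] {D : ℕ} {A B : Type}

/-- The block construction: block `i` is matched with the auxiliary part. -/
noncomputable def blk {J : Type} (T : J → (A ≃. B)) (i : J) :
    ((J × A) ⊕ B) ≃. ((J × B) ⊕ A) where
  toFun := fun x => match x with
    | Sum.inl (j, a) => if j = i then some (Sum.inr a) else (T j a).map (fun b => Sum.inl (j, b))
    | Sum.inr b => some (Sum.inl (i, b))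
  invFun := fun y => match y with
    | Sum.inl (j, b) => if j = i then some (Sum.inr b)
        else ((T j).symm b).map (fun a => Sum.inl (j, a))
    | Sum.inr a => some (Sum.inl (i, a))
  inv := by
    intro x y
    rcases x with ⟨j, a⟩ | b <;> rcases y with ⟨j', b'⟩ | a'
    · by_cases h : j = i <;> by_cases h' : j' = i
      · simp [h, h']
      · simp [h, h']
      · simp [h, h']
      · simp only [h, h', if_false]
        simp only [Option.map_eq_some_iff, Sum.inl.injEq, Prod.mk.injEq]
        constructor
        · rintro ⟨a1, h1, h2, h3⟩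
          subst h2; subst h3
          exact ⟨b', (PEquiv.eq_some_iff _).1 h1, rfl, rfl⟩
        · rintro ⟨b1, h1, h2, h3⟩
          subst h2; subst h3
          exact ⟨a, (PEquiv.eq_some_iff _).2 h1, rfl, rfl⟩
    · by_cases h : j = i
      · simp [h, eq_comm]
      · simp [h, eq_comm]
        intro h1
        exact (h h1.symm).elim
    · by_cases h : j' = i
      · simp [h, eq_comm]
      · simp [h, eq_comm]
        intro h1
        exact (h h1.symm).elim
    · simp

theorem blk_symm {J : Type} (T : J → (A ≃. B)) (i : J) :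
    (blk T i).symm = blk (fun j => (T j).symm) i := by
  ext x y
  rcases x with ⟨j, a⟩ | c <;> rfl

theorem blk_inl_self {J : Type} (T : J → (A ≃. B)) (i : J) (a : A) :
    blk T i (Sum.inl (i, a)) = some (Sum.inr a) := by
  simp [blk]

theorem blk_inl_ne {J : Type} (T : J → (A ≃. B)) (i j : J) (h : j ≠ i) (a : A) :
    blk T i (Sum.inl (j, a)) = (T j a).map (fun b => Sum.inl (j, b)) := by
  simp [blk, h]

theorem blk_inr {J : Type} (T : J → (A ≃. B)) (i : J) (b : B) :
    blk T i (Sum.inr b) = some (Sum.inl (i, b)) := rfl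

theorem sum_prod_update {J ι : Type} [Fintype J] [Fintype ι] (w : ι → F) (hw : ∑ i, w i = 1)
    (j : J) (h : (J → ι) → F) :
    ∑ f : J → ι, (∏ j', w (f j')) * h f =
      ∑ f : J → ι, (∏ j', w (f j')) * ∑ u, w u * h (Function.update f j u) := by
  have h1 : ∑ f : J → ι, (∏ j', w (f j')) * ∑ u, w u * h (Function.update f j u)
      = ∑ x : (J → ι) × ι, (∏ j', w (x.1 j')) * w x.2 * h (Function.update x.1 j x.2) := by
    rw [Fintype.sum_prod_type]
    refine Finset.sum_congr rfl (fun f _ => ?_)
    rw [Finset.mul_sum]
    refine Finset.sum_congr rfl (fun u _ => ?_)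
    ring
  have h2 : ∑ f : J → ι, (∏ j', w (f j')) * h f
      = ∑ x : (J → ι) × ι, (∏ j', w (x.1 j')) * w x.2 * h x.1 := by
    rw [Fintype.sum_prod_type]
    refine Finset.sum_congr rfl (fun f _ => ?_)
    rw [show (∑ y, (∏ j', w ((f, y).1 j')) * w (f, y).2 * h (f, y).1)
        = (∏ j', w (f j')) * (∑ y, w y) * h f by rw [Finset.mul_sum, Finset.sum_mul],
      hw, mul_one]
  rw [h1, h2]
  have hinv : Function.Involutive
      (fun x : (J → ι) × ι => (Function.update x.1 j x.2, x.1 j)) := by
    intro x
    simp
  symm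
  refine Fintype.sum_equiv hinv.toPerm _ _ (fun x => ?_)
  simp only [Function.Involutive.coe_toPerm]
  have h3 : ∏ j', w (Function.update x.1 j x.2 j') =
      w x.2 * ∏ j' ∈ univ \ {j}, w (x.1 j') := by
    have := Finset.prod_update_of_mem (Finset.mem_univ j) (fun j' => w (x.1 j')) (w x.2)
    rw [← this]
    refine Finset.prod_congr rfl (fun j' _ => ?_)
    by_cases hj : j' = j
    · subst hj; simp
    · simp [hj]
  have h4 : ∏ j', w (x.1 j') = w (x.1 j) * ∏ j' ∈ univ \ {j}, w (x.1 j') := by
    have := Finset.prod_update_of_mem (Finset.mem_univ j) (fun j' => w (x.1 j')) (w (x.1 j))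
    rw [← this]
    refine Finset.prod_congr rfl (fun j' _ => ?_)
    by_cases hj : j' = j
    · subst hj; simp
    · simp [hj]
  rw [h3, h4]
  ring

theorem sum_prod_one {J ι : Type} [Fintype J] [Fintype ι] (w : ι → F) (hw : ∑ i, w i = 1) :
    ∑ f : J → ι, (∏ j', w (f j')) = 1 := by
  have h := Finset.prod_univ_sum (ι := J) (κ := fun _ => ι) (fun _ => (Finset.univ : Finset ι))
    (fun _ i => w i)
  rw [Fintype.piFinset_univ] at h
  rw [← h]
  simp [hw]

/-- The part of the test outside block `j`. -/
def Rest {J : Type} (T : J → (A ≃. B)) (i j : J)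
    (s : Finset (((J × A) ⊕ B) × ((J × B) ⊕ A))) : Prop :=
  ∀ x ∈ s, (¬ ∃ a b, x = (Sum.inl (j, a), Sum.inl (j, b))) → blk T i x.1 = some x.2

theorem cov_blk {J : Type} [Fintype A] [Fintype B] (T : J → (A ≃. B)) (i j : J) (hij : j ≠ i)
    (s : Finset (((J × A) ⊕ B) × ((J × B) ⊕ A))) :
    Cov (blk T i) s ↔ Rest T i j s ∧
      Cov (T j) (restr (fun a => Sum.inl (j, a)) (fun b => Sum.inl (j, b)) s) := by
  constructor
  · intro h
    refine ⟨fun x hx _ => h x hx, ?_⟩
    intro x hx
    rw [mem_restr] at hx
    have h1 := h _ hx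
    rw [blk_inl_ne T i j hij] at h1
    simpa using h1
  · rintro ⟨h1, h2⟩ x hx
    by_cases hne : ∃ a b, x = (Sum.inl (j, a), Sum.inl (j, b))
    · obtain ⟨a, b, rfl⟩ := hne
      have h3 := h2 (a, b) ((mem_restr _ _ _ _).2 hx)
      simp only at h3
      rw [blk_inl_ne T i j hij, h3, Option.map_some]
    · exact h1 x hx hne

theorem rest_update {J ι : Type} (T : ι → (A ≃. B)) (i j : J) (hij : j ≠ i) (f : J → ι) (u : ι)
    (s : Finset (((J × A) ⊕ B) × ((J × B) ⊕ A))) :
    Rest (fun j' => T (Function.update f j u j')) i j s ↔ Rest (fun j' => T (f j')) i j s := by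
  unfold Rest
  refine forall_congr' (fun x => forall_congr' (fun hx => forall_congr' (fun hne => ?_)))
  rcases x with ⟨x, y⟩
  rcases x with ⟨j', a⟩ | b
  · by_cases hj : j' = j
    · subst hj
      simp only [blk_inl_ne _ i j' hij, Option.map_eq_some_iff]
      constructor
      · rintro ⟨b, _, hb⟩
        exact absurd ⟨a, b, by rw [hb]⟩ hne
      · rintro ⟨b, _, hb⟩
        exact absurd ⟨a, b, by rw [hb]⟩ hne
    · by_cases hi : j' = i
      · subst hi
        simp only [blk_inl_self]
      · simp only [blk_inl_ne _ i j' hi, Function.update_of_ne hj]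
  · simp only [blk_inr]

theorem IsRow.blk {J ι : Type} [Fintype A] [Fintype B] [Fintype J] [Fintype ι] {w : ι → F}
    {T : ι → A ≃. B} (hw : ∑ i, w i = 1) (h : IsRow F D w T)
    (hJ : ((Fintype.card J : ℕ) : F) = 1) :
    IsRow F (D + 1) (fun x : J × (J → ι) => ∏ j, w (x.2 j))
      (fun x => H680R2.blk (fun j => T (x.2 j)) x.1) := by
  intro s hs a'
  rcases a' with ⟨j, a⟩ | b
  · rw [Fintype.sum_prod_type]
    simp only
    set s1 := restr (fun a : A => (Sum.inl (j, a) : (J × A) ⊕ B))
      (fun b : B => (Sum.inl (j, b) : (J × B) ⊕ A)) s with hs1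
    set X : F := ∑ u, w u * (ind F (Cov (T u) s1) * ind F (T u a = none)) with hX
    have hinjA : Function.Injective (fun a : A => (Sum.inl (j, a) : (J × A) ⊕ B)) := by
      intro a a' haa
      simpa using haa
    have hinjB : Function.Injective (fun b : B => (Sum.inl (j, b) : (J × B) ⊕ A)) := by
      intro a a' haa
      simpa using haa
    have hmain : ∀ i : J, ∑ f : J → ι, (∏ j', w (f j')) *
        (ind F (Cov (H680R2.blk (fun j' => T (f j')) i) s) *
          ind F (H680R2.blk (fun j' => T (f j')) i (Sum.inl (j, a)) = none))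
        = if i = j then 0 else X := by
      intro i
      by_cases hij : i = j
      · subst hij
        rw [if_pos rfl]
        apply Finset.sum_eq_zero
        intro f _
        rw [blk_inl_self, ind_false (P := (some (Sum.inr a : (J × B) ⊕ A)) = none) (by simp)]
        simp
      · rw [if_neg hij]
        have hji : j ≠ i := fun h => hij h.symm
        rw [sum_prod_update w hw j]
        have h1 : ∀ f : J → ι, ∑ u, w u *
            (ind F (Cov (H680R2.blk (fun j' => T (Function.update f j u j')) i) s) *
            ind F (H680R2.blk (fun j' => T (Function.update f j u j')) i (Sum.inl (j, a)) = none))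
            = ind F (Rest (fun j' => T (f j')) i j s) * X := by
          intro f
          rw [hX, Finset.mul_sum]
          refine Finset.sum_congr rfl (fun u _ => ?_)
          rw [ind_congr (cov_blk _ i j hji s), ind_and, ind_congr (rest_update T i j hji f u s)]
          have h2 : H680R2.blk (fun j' => T (Function.update f j u j')) i (Sum.inl (j, a)) = none
              ↔ T u a = none := by
            rw [blk_inl_ne _ i j hji]
            simp
          rw [ind_congr h2]
          simp only [Function.update_self]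
          ring
        simp only [h1]
        by_cases hc : s1.card < D
        · have hX0 : X = 0 := h s1 hc a
          simp [hX0]
        · have hc2 : s.card ≤ s1.card := by omega
          have h3 : ∀ f : J → ι, Rest (fun j' => T (f j')) i j s := by
            intro f x hx hne
            obtain ⟨y, hy⟩ := exists_of_card_restr hinjA hinjB s hc2 x hx
            exact absurd ⟨y.1, y.2, hy.symm⟩ hne
          simp only [ind_true (h3 _), one_mul]
          rw [← Finset.sum_mul, sum_prod_one w hw, one_mul]
    simp only [hmain]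
    rw [Finset.sum_ite, Finset.sum_const_zero, zero_add, Finset.sum_const, nsmul_eq_mul]
    have h5 : ((Finset.univ.filter (fun i : J => ¬ i = j)).card : F) = 0 := by
      have h6 : (Finset.univ.filter (fun i : J => ¬ i = j)).card + 1 = Fintype.card J := by
        have h8 := Finset.card_erase_add_one (Finset.mem_univ j)
        rw [Finset.card_univ] at h8
        rw [← h8]
        congr 2
        ext i
        simp
      have h7 : (((Finset.univ.filter (fun i : J => ¬ i = j)).card + 1 : ℕ) : F) = 1 := by
        rw [h6]; exact hJ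
      push_cast at h7
      linear_combination h7
    rw [h5, zero_mul]
  · apply Finset.sum_eq_zero
    rintro ⟨i, f⟩ _
    simp only [blk_inr]
    rw [ind_false (P := (some (Sum.inl (i, b) : (J × B) ⊕ A)) = none) (by simp)]
    simp

theorem HasDesign.blk [Fintype A] [Fintype B] (h : HasDesign F D A B) (J : Type) [Fintype J]
    (hJ : ((Fintype.card J : ℕ) : F) = 1) :
    HasDesign F (D + 1) ((J × A) ⊕ B) ((J × B) ⊕ A) := by
  obtain ⟨ι, _, w, T, h1, h2, h3⟩ := h
  refine ⟨J × (J → ι), inferInstance, fun x => ∏ j, w (x.2 j),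
    fun x => H680R2.blk (fun j => T (x.2 j)) x.1, ?_, h2.blk h1 hJ, ?_⟩
  · rw [Fintype.sum_prod_type]
    simp only [sum_prod_one w h1]
    simp [hJ]
  · have h4 := IsRow.blk (T := fun i => (T i).symm) h1 h3 hJ
    intro s hs a
    have h5 := h4 s hs a
    rw [← h5]
    refine Finset.sum_congr rfl (fun x _ => ?_)
    simp only [blk_symm]

/-! ### Sizes -/

theorem HasDesign.congr {A' B' : Type} [Fintype A] [Fintype B]
    (h : HasDesign F D A B) (eA : A ≃ A') (eB : B ≃ B') : HasDesign F D A' B' :=
  (HasDesign.trans (HasDesign.ofEquiv eA.symm) (HasDesign.trans h (HasDesign.ofEquiv eB)))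

/-- Designs between standard finite types. -/
def Eqv (F : Type) [Field F] (D m n : ℕ) : Prop := HasDesign F D (Fin m) (Fin n)

theorem Eqv.hasDesign {m n : ℕ} (h : Eqv F D m n) [Fintype A] [Fintype B]
    (hA : Fintype.card A = m) (hB : Fintype.card B = n) : HasDesign F D A B :=
  HasDesign.congr h (Fintype.equivFinOfCardEq hA).symm (Fintype.equivFinOfCardEq hB).symm

theorem HasDesign.eqv [Fintype A] [Fintype B] (h : HasDesign F D A B) :
    Eqv F D (Fintype.card A) (Fintype.card B) :=
  HasDesign.congr h (Fintype.equivFin A) (Fintype.equivFin B)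

theorem Eqv.refl (m : ℕ) : Eqv F D m m := HasDesign.ofEquiv (Equiv.refl _)

theorem Eqv.trans {a b c : ℕ} (h : Eqv F D a b) (h' : Eqv F D b c) : Eqv F D a c :=
  HasDesign.trans h h'

theorem Eqv.add {a b : ℕ} (h : Eqv F D a b) (c : ℕ) : Eqv F D (a + c) (b + c) := by
  have h1 := (HasDesign.addId h (Fin c)).eqv
  simpa using h1

theorem Eqv.step {a b p : ℕ} [CharP F p] (h : Eqv F D a b) :
    Eqv F (D + 1) ((p + 1) * a + b) ((p + 1) * b + a) := by
  have h1 := (HasDesign.blk h (Fin (p + 1)) (by simp)).eqv
  simpa using h1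

/-- The sizes of the recursive designs. -/
def nD (p : ℕ) : ℕ → ℕ
  | 0 => 0
  | D + 1 => (p + 2) * nD p D + p ^ D

theorem eqv_base (p D : ℕ) (F : Type) [Field F] [CharP F p] :
    Eqv F D (nD p D + p ^ D) (nD p D) := by
  induction D with
  | zero =>
    refine ⟨Unit, inferInstance, fun _ => 1, fun _ => ⊥, by simp, ?_, ?_⟩
    · intro s hs; omega
    · intro s hs; omega
  | succ D ih =>
    have h := Eqv.step (p := p) ih
    have e1 : (p + 1) * (nD p D + p ^ D) + nD p D = nD p (D + 1) + p ^ (D + 1) := by
      simp only [nD]; ring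
    have e2 : (p + 1) * nD p D + (nD p D + p ^ D) = nD p (D + 1) := by
      simp only [nD]; ring
    rw [e1, e2] at h
    exact h

/-- The main existence theorem for designs. -/
theorem eqv_main (p D : ℕ) (F : Type) [Field F] [CharP F p] (n j : ℕ) (hn : nD p D ≤ n) :
    Eqv F D (n + j * p ^ D) n := by
  induction j with
  | zero => simpa using Eqv.refl n
  | succ j ih =>
    have h1 : Eqv F D (n + j * p ^ D + p ^ D) (n + j * p ^ D) := by
      have h := (eqv_base p D F).add (n + j * p ^ D - nD p D)
      have e1 : nD p D + p ^ D + (n + j * p ^ D - nD p D) = n + j * p ^ D + p ^ D := by omega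
      have e2 : nD p D + (n + j * p ^ D - nD p D) = n + j * p ^ D := by omega
      rw [e1, e2] at h
      exact h
    have e3 : n + (j + 1) * p ^ D = n + j * p ^ D + p ^ D := by ring
    rw [e3]
    exact h1.trans ih

end Pool.Agent.H680R2
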