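import Mathlib
import Pool.Agent.H680R2.PhpRec

set_option autoImplicit false

open scoped Classical
open Finset

namespace Pool.Agent.H680R2

variable {F : Type} [Field F] {D : ℕ} {A B : Type}

/-! ### Test functions -/

/-- Test functions of degree at most `k` on partial matchings. -/
def Tst (F : Type) [Field F] (A B : Type) (k : ℕ) : Submodule F ((A ≃. B) → F) :=
  Submodule.span F {h | ∃ s : Finset (A × B), s.card ≤ k ∧ h = fun T => ind F (Cov T s)}

theorem Tst.one_mem : (fun _ => (1 : F)) ∈ Tst F A B 0 := by
  apply Submodule.subset_span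
  refine ⟨∅, by simp, ?_⟩
  funext T
  rw [ind_true]
  intro x hx
  simp at hx

theorem Tst.mono {k k' : ℕ} (h : k ≤ k') : Tst F A B k ≤ Tst F A B k' := by
  apply Submodule.span_mono
  rintro h1 ⟨s, hs, rfl⟩
  exact ⟨s, hs.trans h, rfl⟩

theorem Tst.mul_some {k : ℕ} {h : (A ≃. B) → F} (hh : h ∈ Tst F A B k) (a : A) (b : B) :
    (fun T => h T * ind F (T a = some b)) ∈ Tst F A B (k + 1) := by
  unfold Tst at hh
  induction hh using Submodule.span_induction with
  | mem x hx =>
    obtain ⟨s, hs, rfl⟩ := hx
    apply Submodule.subset_span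
    refine ⟨insert (a, b) s, (Finset.card_insert_le _ _).trans (by omega), ?_⟩
    funext T
    rw [← ind_and]
    apply ind_congr
    simp [Cov, and_comm]
  | zero => simp; exact Submodule.zero_mem _
  | add x y _ _ hx hy =>
    have := Submodule.add_mem _ hx hy
    convert this using 1
    funext T
    simp [add_mul]
  | smul c x _ hx =>
    have := Submodule.smul_mem _ c hx
    convert this using 1
    funext T
    simp [mul_assoc]

theorem Tst.mul_none [Fintype B] {k : ℕ} {h : (A ≃. B) → F} (hh : h ∈ Tst F A B k) (a : A) :
    (fun T => h T * ind F (T a = none)) ∈ Tst F A B (k + 1) := by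
  have h1 : (fun T : A ≃. B => h T * ind F (T a = none)) =
      h - ∑ b : B, (fun T : A ≃. B => h T * ind F (T a = some b)) := by
    funext T
    simp only [Pi.sub_apply, Finset.sum_apply]
    rw [ind_none, mul_sub, mul_one, Finset.mul_sum]
  rw [h1]
  apply Submodule.sub_mem
  · exact Tst.mono (Nat.le_succ k) hh
  · exact Submodule.sum_mem _ (fun b _ => Tst.mul_some hh a b)

theorem Tst.mul_symm_none [Fintype A] {k : ℕ} {h : (A ≃. B) → F} (hh : h ∈ Tst F A B k) (b : B) :
    (fun T => h T * ind F (T.symm b = none)) ∈ Tst F A B (k + 1) := by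
  have h1 : (fun T : A ≃. B => h T * ind F (T.symm b = none)) =
      h - ∑ a : A, (fun T : A ≃. B => h T * ind F (T a = some b)) := by
    funext T
    simp only [Pi.sub_apply, Finset.sum_apply]
    rw [ind_none, mul_sub, mul_one, Finset.mul_sum]
    congr 1
    refine Finset.sum_congr rfl (fun a _ => ?_)
    rw [ind_congr (PEquiv.eq_some_iff T)]
  rw [h1]
  apply Submodule.sub_mem
  · exact Tst.mono (Nat.le_succ k) hh
  · exact Submodule.sum_mem _ (fun a _ => Tst.mul_some hh a b)

theorem IsRow.tst {ι : Type} [Fintype ι] {w : ι → F} {T : ι → A ≃. B}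
    (h : IsRow F D w T) {k : ℕ} (hk : k < D) {t : (A ≃. B) → F} (ht : t ∈ Tst F A B k) (a : A) :
    ∑ i, w i * (t (T i) * ind F (T i a = none)) = 0 := by
  unfold Tst at ht
  induction ht using Submodule.span_induction with
  | mem x hx =>
    obtain ⟨s, hs, rfl⟩ := hx
    exact h s (lt_of_le_of_lt hs hk) a
  | zero => simp
  | add x y _ _ hx hy =>
    have : ∀ i, w i * ((x + y) (T i) * ind F (T i a = none)) =
        w i * (x (T i) * ind F (T i a = none)) + w i * (y (T i) * ind F (T i a = none)) := by
      intro i; simp only [Pi.add_apply]; ring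
    simp only [this, Finset.sum_add_distrib, hx, hy, add_zero]
  | smul c x _ hx =>
    have : ∀ i, w i * ((c • x) (T i) * ind F (T i a = none)) =
        c * (w i * (x (T i) * ind F (T i a = none))) := by
      intro i; simp only [Pi.smul_apply, smul_eq_mul]; ring
    simp only [this, ← Finset.mul_sum, hx, mul_zero]

theorem IsRow.tst_symm {ι : Type} [Fintype ι] {w : ι → F} {T : ι → A ≃. B}
    (h : IsRow F D w (fun i => (T i).symm)) {k : ℕ} (hk : k < D) {t : (A ≃. B) → F}
    (ht : t ∈ Tst F A B k) (b : B) :
    ∑ i, w i * (t (T i) * ind F ((T i).symm b = none)) = 0 := by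
  unfold Tst at ht
  induction ht using Submodule.span_induction with
  | mem x hx =>
    obtain ⟨s, hs, rfl⟩ := hx
    have h1 := h (s.image Prod.swap) (lt_of_le_of_lt (Finset.card_image_le.trans hs) hk) b
    rw [← h1]
    refine Finset.sum_congr rfl (fun i _ => ?_)
    congr 2
    apply ind_congr
    constructor
    · intro h2 x hx
      obtain ⟨y, hy, rfl⟩ := Finset.mem_image.1 hx
      simp only [Prod.fst_swap, Prod.snd_swap]
      exact (PEquiv.eq_some_iff (T i)).2 (h2 y hy)
    · intro h2 x hx
      have h3 := h2 x.swap (Finset.mem_image_of_mem _ hx)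
      simp only [Prod.fst_swap, Prod.snd_swap] at h3
      exact (PEquiv.eq_some_iff (T i)).1 h3
  | zero => simp
  | add x y _ _ hx hy =>
    have : ∀ i, w i * ((x + y) (T i) * ind F ((T i).symm b = none)) =
        w i * (x (T i) * ind F ((T i).symm b = none)) +
          w i * (y (T i) * ind F ((T i).symm b = none)) := by
      intro i; simp only [Pi.add_apply]; ring
    simp only [this, Finset.sum_add_distrib, hx, hy, add_zero]
  | smul c x _ hx =>
    have : ∀ i, w i * ((c • x) (T i) * ind F ((T i).symm b = none)) =
        c * (w i * (x (T i) * ind F ((T i).symm b = none))) := by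
      intro i; simp only [Pi.smul_apply, smul_eq_mul]; ring
    simp only [this, ← Finset.mul_sum, hx, mul_zero]

/-! ### Flips -/

section flip
variable {X : Type} {P S : Finset X}

/-- The involution of `X` determined by a partial matching between `P` and `S`. -/
noncomputable def flipFun (T : {x // x ∈ P} ≃. {x // x ∈ S}) (x : X) : X :=
  if h : x ∈ P then (T ⟨x, h⟩).elim x (fun y => (y : X))
  else if h : x ∈ S then (T.symm ⟨x, h⟩).elim x (fun y => (y : X))
  else x

theorem flipFun_out (T : {x // x ∈ P} ≃. {x // x ∈ S}) {x : X} (h1 : x ∉ P) (h2 : x ∉ S) :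
    flipFun T x = x := by
  simp [flipFun, h1, h2]

theorem flipFun_P (T : {x // x ∈ P} ≃. {x // x ∈ S}) {x : X} (h1 : x ∈ P) :
    flipFun T x = (T ⟨x, h1⟩).elim x (fun y => (y : X)) := by
  simp [flipFun, h1]

theorem flipFun_S (hd : Disjoint P S) (T : {x // x ∈ P} ≃. {x // x ∈ S}) {x : X} (h1 : x ∈ S) :
    flipFun T x = (T.symm ⟨x, h1⟩).elim x (fun y => (y : X)) := by
  have : x ∉ P := fun h => (Finset.disjoint_left.1 hd h h1)
  simp [flipFun, h1, this]

theorem flipFun_invol (hd : Disjoint P S) (T : {x // x ∈ P} ≃. {x // x ∈ S}) :
    Function.Involutive (flipFun T) := by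
  intro x
  by_cases h1 : x ∈ P
  · rw [flipFun_P T h1]
    cases hT : T ⟨x, h1⟩ with
    | none =>
      simp only [Option.elim_none]
      rw [flipFun_P T h1, hT, Option.elim_none]
    | some y =>
      simp only [Option.elim_some]
      rw [flipFun_S hd T y.2]
      have h2 : T.symm ⟨y, y.2⟩ = some ⟨x, h1⟩ := (PEquiv.eq_some_iff T).2 hT
      rw [h2, Option.elim_some]
  · by_cases h2 : x ∈ S
    · rw [flipFun_S hd T h2]
      cases hT : T.symm ⟨x, h2⟩ with
      | none =>
        simp only [Option.elim_none]
        rw [flipFun_S hd T h2, hT, Option.elim_none]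
      | some y =>
        simp only [Option.elim_some]
        rw [flipFun_P T y.2]
        have h3 : T ⟨y, y.2⟩ = some ⟨x, h2⟩ := (PEquiv.eq_some_iff T).1 hT
        rw [h3, Option.elim_some]
    · rw [flipFun_out T h1 h2, flipFun_out T h1 h2]

/-- The permutation of `X` determined by a partial matching between `P` and `S`. -/
noncomputable def flipPerm (hd : Disjoint P S) (T : {x // x ∈ P} ≃. {x // x ∈ S}) :
    Equiv.Perm X := (flipFun_invol hd T).toPerm

theorem flipPerm_apply (hd : Disjoint P S) (T : {x // x ∈ P} ≃. {x // x ∈ S}) (x : X) :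
    flipPerm hd T x = flipFun T x := rfl

theorem Tst.mul_flip (hd : Disjoint P S) {k : ℕ} {h : ({x // x ∈ P} ≃. {x // x ∈ S}) → F}
    (hh : h ∈ Tst F {x // x ∈ P} {x // x ∈ S} k) (x y : X) :
    (fun T => h T * ind F (flipFun T x = y)) ∈ Tst F {x // x ∈ P} {x // x ∈ S} (k + 1) := by
  by_cases h1 : x ∈ P
  · have hxS : x ∉ S := fun h => (Finset.disjoint_left.1 hd h1 h)
    by_cases h2 : y ∈ S
    · have h3 := Tst.mul_some hh ⟨x, h1⟩ ⟨y, h2⟩
      convert h3 using 3 with T
      apply ind_congr
      rw [flipFun_P T h1]
      cases hT : T ⟨x, h1⟩ with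
      | none =>
        simp only [Option.elim_none, reduceCtorEq, iff_false]
        rintro rfl
        exact hxS h2
      | some z =>
        simp only [Option.elim_some, Option.some.injEq]
        exact ⟨fun h => Subtype.ext h, fun h => by rw [h]⟩
    · by_cases h3 : y = x
      · subst h3
        have h4 := Tst.mul_none hh ⟨y, h1⟩
        convert h4 using 3 with T
        apply ind_congr
        rw [flipFun_P T h1]
        cases hT : T ⟨y, h1⟩ with
        | none => simp
        | some z =>
          simp only [Option.elim_some, reduceCtorEq, iff_false]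
          intro h5
          exact h2 (h5 ▸ z.2)
      · have h4 : (fun T : {x // x ∈ P} ≃. {x // x ∈ S} => h T * ind F (flipFun T x = y)) = 0 := by
          funext T
          rw [ind_false, mul_zero]
          · rfl
          rw [flipFun_P T h1]
          cases hT : T ⟨x, h1⟩ with
          | none =>
            simp only [Option.elim_none]
            exact fun h => h3 h.symm
          | some z =>
            simp only [Option.elim_some]
            intro h5
            exact h2 (h5 ▸ z.2)
        rw [h4]
        exact Submodule.zero_mem _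
  · by_cases hS : x ∈ S
    · by_cases h2 : y ∈ P
      · have h3 := Tst.mul_some hh ⟨y, h2⟩ ⟨x, hS⟩
        convert h3 using 3 with T
        apply ind_congr
        rw [flipFun_S hd T hS, ← PEquiv.eq_some_iff T]
        cases hT : T.symm ⟨x, hS⟩ with
        | none =>
          simp only [Option.elim_none, reduceCtorEq, iff_false]
          rintro rfl
          exact h1 h2
        | some z =>
          simp only [Option.elim_some, Option.some.injEq]
          exact ⟨fun h => Subtype.ext h, fun h => by rw [h]⟩
      · by_cases h3 : y = x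
        · subst h3
          have h4 := Tst.mul_symm_none hh ⟨y, hS⟩
          convert h4 using 3 with T
          apply ind_congr
          rw [flipFun_S hd T hS]
          cases hT : T.symm ⟨y, hS⟩ with
          | none => simp
          | some z =>
            simp only [Option.elim_some, reduceCtorEq, iff_false]
            intro h5
            exact h2 (h5 ▸ z.2)
        · have h4 : (fun T : {x // x ∈ P} ≃. {x // x ∈ S} => h T * ind F (flipFun T x = y)) = 0 := by
            funext T
            rw [ind_false, mul_zero]
            · rfl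
            rw [flipFun_S hd T hS]
            cases hT : T.symm ⟨x, hS⟩ with
            | none =>
              simp only [Option.elim_none]
              exact fun h => h3 h.symm
            | some z =>
              simp only [Option.elim_some]
              intro h5
              exact h2 (h5 ▸ z.2)
          rw [h4]
          exact Submodule.zero_mem _
    · have h4 : (fun T : {x // x ∈ P} ≃. {x // x ∈ S} => h T * ind F (flipFun T x = y)) =
          (ind F (x = y)) • h := by
        funext T
        rw [flipFun_out T h1 hS]
        simp [mul_comm]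
      rw [h4]
      exact Submodule.smul_mem _ _ (Tst.mono (Nat.le_succ k) hh)

theorem Tst.prod_flip (hd : Disjoint P S) {κ : Type} (L : Finset κ) (x y : κ → X) :
    (fun T => ∏ l ∈ L, ind F (flipFun T (x l) = y l)) ∈
      Tst F {x // x ∈ P} {x // x ∈ S} L.card := by
  induction L using Finset.induction_on with
  | empty => simpa using Tst.one_mem
  | insert l L hl ih =>
    rw [Finset.card_insert_of_notMem hl]
    have h1 := Tst.mul_flip hd ih (x l) (y l)
    convert h1 using 1
    funext T
    rw [Finset.prod_insert hl, mul_comm]

/-- The flip relation. -/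
def FlipRel (P S : Finset X) {κ : Type} (x y : κ → X) : Prop :=
  ∀ l, (x l ∉ P ∧ x l ∉ S ∧ y l = x l) ∨ (x l ∈ P ∧ y l ∈ S) ∨ (x l ∈ S ∧ y l ∈ P)

theorem flip_rel (hd : Disjoint P S) {ι κ : Type} [Fintype ι] [Fintype κ] {w : ι → F}
    {T : ι → {x // x ∈ P} ≃. {x // x ∈ S}}
    (h1 : IsRow F D w T) (h2 : IsRow F D w (fun i => (T i).symm))
    (hκ : Fintype.card κ ≤ D) (x y : κ → X)
    (hne : ∑ i, w i * ind F (∀ l, flipPerm hd (T i) (x l) = y l) ≠ 0) : FlipRel P S x y := by
  intro l
  by_contra hcon
  apply hne
  simp only [flipPerm_apply]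
  have hcard : (Finset.univ.erase l).card < D := by
    rw [Finset.card_erase_of_mem (Finset.mem_univ l), Finset.card_univ]
    have : 0 < Fintype.card κ := Fintype.card_pos_iff.2 ⟨l⟩
    omega
  have hprod : ∀ i, ind F (∀ l, flipFun (T i) (x l) = y l) =
      (∏ l' ∈ Finset.univ.erase l, ind F (flipFun (T i) (x l') = y l')) *
        ind F (flipFun (T i) (x l) = y l) := by
    intro i
    rw [ind_forall, Finset.prod_erase_mul _ _ (Finset.mem_univ l)]
  simp only [hprod]
  have htst := Tst.prod_flip (F := F) hd (Finset.univ.erase l) x y
  by_cases hP : x l ∈ P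
  · have hyS : y l ∉ S := fun h => hcon (Or.inr (Or.inl ⟨hP, h⟩))
    by_cases hxy : y l = x l
    · have h3 := h1.tst hcard htst ⟨x l, hP⟩
      rw [← h3]
      refine Finset.sum_congr rfl (fun i _ => ?_)
      congr 2
      apply ind_congr
      rw [flipFun_P (T i) hP, hxy]
      cases hT : T i ⟨x l, hP⟩ with
      | none => simp
      | some z =>
        simp only [Option.elim_some, reduceCtorEq, iff_false]
        intro h5
        exact hyS (by rw [hxy, ← h5]; exact z.2)
    · apply Finset.sum_eq_zero
      intro i _
      rw [ind_false (P := flipFun (T i) (x l) = y l), mul_zero, mul_zero]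
      rw [flipFun_P (T i) hP]
      cases hT : T i ⟨x l, hP⟩ with
      | none =>
        simp only [Option.elim_none]
        exact fun h => hxy h.symm
      | some z =>
        simp only [Option.elim_some]
        intro h5
        exact hyS (h5 ▸ z.2)
  · by_cases hS : x l ∈ S
    · have hyP : y l ∉ P := fun h => hcon (Or.inr (Or.inr ⟨hS, h⟩))
      by_cases hxy : y l = x l
      · have h3 := IsRow.tst_symm h2 hcard htst ⟨x l, hS⟩
        rw [← h3]
        refine Finset.sum_congr rfl (fun i _ => ?_)
        congr 2
        apply ind_congr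
        rw [flipFun_S hd (T i) hS, hxy]
        cases hT : (T i).symm ⟨x l, hS⟩ with
        | none => simp
        | some z =>
          simp only [Option.elim_some, reduceCtorEq, iff_false]
          intro h5
          exact hyP (by rw [hxy, ← h5]; exact z.2)
      · apply Finset.sum_eq_zero
        intro i _
        rw [ind_false (P := flipFun (T i) (x l) = y l), mul_zero, mul_zero]
        rw [flipFun_S hd (T i) hS]
        cases hT : (T i).symm ⟨x l, hS⟩ with
        | none =>
          simp only [Option.elim_none]
          exact fun h => hxy h.symm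
        | some z =>
          simp only [Option.elim_some]
          intro h5
          exact hyP (h5 ▸ z.2)
    · apply Finset.sum_eq_zero
      intro i _
      rw [ind_false (P := flipFun (T i) (x l) = y l), mul_zero, mul_zero]
      rw [flipFun_out (T i) hP hS]
      exact fun h => hcon (Or.inl ⟨hP, hS, h.symm⟩)

end flip

end Pool.Agent.H680R2
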