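import Mathlib
import Pool.Agent.H680R2.PhpFlip

set_option autoImplicit false

open scoped Classical
open Finset MvPolynomial

namespace Pool.Agent.H680R2

variable {F : Type} [Field F] {A B : Type} [Fintype A] [Fintype B]

/-- The axioms, with their degrees. -/
inductive Ax (F : Type) [Field F] (A B : Type) [Fintype A] [Fintype B] :
    ℕ → MvPolynomial (A × B) F → Prop
  | bool (v : A × B) : Ax F A B 2 (X v ^ 2 - X v)
  | row (a : A) : Ax F A B 1 (1 - ∑ b, X (a, b))
  | fn (a : A) (b b' : B) (h : b ≠ b') : Ax F A B 2 (X (a, b) * X (a, b'))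
  | inj (a a' : A) (b : B) (h : a ≠ a') : Ax F A B 2 (X (a, b) * X (a', b))
  | col (b : B) : Ax F A B 1 (1 - ∑ a, X (a, b))

/-- Degree `D` Nullstellensatz consequences. -/
noncomputable def NS (F : Type) [Field F] (A B : Type) [Fintype A] [Fintype B] (D : ℕ) :
    Submodule F (MvPolynomial (A × B) F) :=
  Submodule.span F {f | ∃ (g : MvPolynomial (A × B) F) (k : ℕ) (ax : MvPolynomial (A × B) F),
    Ax F A B k ax ∧ g.totalDegree + k ≤ D ∧ f = g * ax}

theorem NS.mono {D D' : ℕ} (h : D ≤ D') : NS F A B D ≤ NS F A B D' := by
  apply Submodule.span_mono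
  rintro f ⟨g, k, ax, h1, h2, rfl⟩
  exact ⟨g, k, ax, h1, h2.trans h, rfl⟩

theorem NS.ax_mem {D k : ℕ} {ax : MvPolynomial (A × B) F} (h : Ax F A B k ax) (hk : k ≤ D) :
    ax ∈ NS F A B D := by
  apply Submodule.subset_span
  refine ⟨1, k, ax, h, ?_, by simp⟩
  simpa using hk

theorem NS.mul_X {D : ℕ} {f : MvPolynomial (A × B) F} (h : f ∈ NS F A B D) (v : A × B) :
    X v * f ∈ NS F A B (D + 1) := by
  unfold NS at h
  induction h using Submodule.span_induction with
  | mem f hf =>
    obtain ⟨g, k, ax, h1, h2, rfl⟩ := hf
    apply Submodule.subset_span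
    refine ⟨X v * g, k, ax, h1, ?_, by ring⟩
    have h3 := totalDegree_mul (X v : MvPolynomial (A × B) F) g
    have h4 : (X v : MvPolynomial (A × B) F).totalDegree = 1 := totalDegree_X v
    omega
  | zero => simp
  | add x y _ _ hx hy =>
    rw [mul_add]
    exact Submodule.add_mem _ hx hy
  | smul c x _ hx =>
    rw [mul_smul_comm]
    exact Submodule.smul_mem _ c hx

theorem Ax.rename {k : ℕ} {ax : MvPolynomial (A × B) F} (h : Ax F A B k ax)
    (e : Equiv.Perm A) (e' : Equiv.Perm B) :
    Ax F A B k (MvPolynomial.rename (Prod.map e e') ax) := by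
  cases h with
  | bool v =>
    simp only [map_sub, map_pow, rename_X]
    exact Ax.bool _
  | row a =>
    simp only [map_sub, map_one, map_sum, rename_X, Prod.map_apply]
    have : ∑ b, (X (e a, e' b) : MvPolynomial (A × B) F) = ∑ b, X (e a, b) :=
      Fintype.sum_equiv e' _ _ (fun b => rfl)
    rw [this]
    exact Ax.row _
  | fn a b b' h =>
    simp only [map_mul, rename_X, Prod.map_apply]
    exact Ax.fn _ _ _ (fun h1 => h (e'.injective h1))
  | inj a a' b h =>
    simp only [map_mul, rename_X, Prod.map_apply]
    exact Ax.inj _ _ _ (fun h1 => h (e.injective h1))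
  | col b =>
    simp only [map_sub, map_one, map_sum, rename_X, Prod.map_apply]
    have : ∑ a, (X (e a, e' b) : MvPolynomial (A × B) F) = ∑ a, X (a, e' b) :=
      Fintype.sum_equiv e _ _ (fun b => rfl)
    rw [this]
    exact Ax.col _

theorem NS.rename {D : ℕ} {f : MvPolynomial (A × B) F} (h : f ∈ NS F A B D)
    (e : Equiv.Perm A) (e' : Equiv.Perm B) :
    MvPolynomial.rename (Prod.map e e') f ∈ NS F A B D := by
  unfold NS at h
  induction h using Submodule.span_induction with
  | mem f hf =>
    obtain ⟨g, k, ax, h1, h2, rfl⟩ := hf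
    apply Submodule.subset_span
    refine ⟨MvPolynomial.rename (Prod.map e e') g, k, MvPolynomial.rename (Prod.map e e') ax,
      h1.rename e e', ?_, by rw [map_mul]⟩
    exact (Nat.add_le_add_right (totalDegree_rename_le _ g) k).trans h2
  | zero => simp
  | add x y _ _ hx hy =>
    rw [map_add]
    exact Submodule.add_mem _ hx hy
  | smul c x _ hx =>
    rw [map_smul]
    exact Submodule.smul_mem _ c hx

/-! ### The functional -/

/-- The point of a partial matching. -/
noncomputable def pt (F : Type) [Field F] (T : A ≃. B) (v : A × B) : F :=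
  ind F (T v.1 = some v.2)

omit [Fintype A] [Fintype B] in
theorem ind_pow (P : Prop) {n : ℕ} (hn : n ≠ 0) : (ind F P) ^ n = ind F P := by
  by_cases h : P <;> simp [ind, h, hn]

omit [Fintype A] [Fintype B] in
theorem ind_forall_mem {κ : Type} (s : Finset κ) (P : κ → Prop) :
    ind F (∀ x ∈ s, P x) = ∏ x ∈ s, ind F (P x) := by
  by_cases h : ∀ x ∈ s, P x
  · rw [ind_true h]
    symm
    apply Finset.prod_eq_one
    intro x hx
    exact ind_true (h x hx)
  · rw [ind_false h]
    push Not at h
    obtain ⟨x, hx, hx2⟩ := h
    exact (Finset.prod_eq_zero hx (ind_false hx2)).symm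

omit [Fintype A] [Fintype B] in
theorem eval_pt_monomial (T : A ≃. B) (m : (A × B) →₀ ℕ) (r : F) :
    eval (fun v : A × B => ind F (T v.1 = some v.2)) (monomial m r)
      = r * ind F (Cov T m.support) := by
  rw [eval_monomial]
  congr 1
  unfold Cov
  rw [ind_forall_mem, Finsupp.prod]
  refine Finset.prod_congr rfl (fun v hv => ?_)
  exact ind_pow _ (Finsupp.mem_support_iff.1 hv)

theorem eval_pt_ax (T : A ≃. B) {k : ℕ} {ax : MvPolynomial (A × B) F} (h : Ax F A B k ax) :
    eval (fun v : A × B => ind F (T v.1 = some v.2)) ax = 0 ∨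
      (k = 1 ∧ ∃ a, ∀ T : A ≃. B, eval (fun v : A × B => ind F (T v.1 = some v.2)) ax
        = ind F (T a = none)) ∨
      (k = 1 ∧ ∃ b, ∀ T : A ≃. B, eval (fun v : A × B => ind F (T v.1 = some v.2)) ax
        = ind F (T.symm b = none)) := by
  cases h with
  | bool v =>
    left
    simp only [map_sub, map_pow, eval_X]
    rw [ind_pow _ (by norm_num), sub_self]
  | row a =>
    right; left
    refine ⟨rfl, a, fun T => ?_⟩
    simp only [map_sub, map_one, map_sum, eval_X]
    rw [ind_none]
  | fn a b b' h =>
    left
    simp only [map_mul, eval_X]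
    rw [← ind_and]
    apply ind_false
    rintro ⟨h1, h2⟩
    rw [h1] at h2
    exact h (Option.some.inj h2)
  | inj a a' b h =>
    left
    simp only [map_mul, eval_X]
    rw [← ind_and]
    apply ind_false
    rintro ⟨h1, h2⟩
    exact h (T.inj h1 h2)
  | col b =>
    right; right
    refine ⟨rfl, b, fun T => ?_⟩
    simp only [map_sub, map_one, map_sum, eval_X]
    rw [ind_none]
    congr 1
    refine Finset.sum_congr rfl (fun a _ => ?_)
    exact ind_congr (PEquiv.eq_some_iff T).symm

theorem support_card_le (m : (A × B) →₀ ℕ) : m.support.card ≤ m.sum (fun _ e => e) := by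
  rw [Finsupp.sum, Finset.card_eq_sum_ones]
  apply Finset.sum_le_sum
  intro i hi
  exact Nat.one_le_iff_ne_zero.2 (Finsupp.mem_support_iff.1 hi)

theorem NS.functional {ι : Type} [Fintype ι] {w : ι → F} {T : ι → A ≃. B} {D : ℕ}
    (h1 : IsRow F D w T) (h2 : IsRow F D w (fun i => (T i).symm))
    {f : MvPolynomial (A × B) F} (hf : f ∈ NS F A B D) :
    ∑ i, w i * eval (fun v : A × B => ind F (T i v.1 = some v.2)) f = 0 := by
  unfold NS at hf
  induction hf using Submodule.span_induction with
  | mem f hf =>
    obtain ⟨g, k, ax, hax, hdeg, rfl⟩ := hf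
    have hmon : ∀ m ∈ g.support, ∑ i, w i *
        eval (fun v : A × B => ind F (T i v.1 = some v.2)) (monomial m (coeff m g) * ax) = 0 := by
      intro m hm
      have h3 : m.support.card + k ≤ D := by
        have h4 := support_card_le m
        have h5 := le_totalDegree hm
        omega
      by_cases hk : k = 1
      · subst hk
        by_cases hall : ∀ i, eval (fun v : A × B => ind F (T i v.1 = some v.2)) ax = 0
        · apply Finset.sum_eq_zero
          intro i _
          rw [map_mul, hall i]
          simp
        · push Not at hall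
          obtain ⟨i0, hi0⟩ := hall
          rcases eval_pt_ax (T i0) hax with h6 | ⟨_, a, ha⟩ | ⟨_, b, hb⟩
          · exact absurd h6 hi0
          · have h7 := h1 m.support (by omega) a
            have h8 : ∀ i, w i * eval (fun v : A × B => ind F (T i v.1 = some v.2))
                (monomial m (coeff m g) * ax) =
                coeff m g * (w i * (ind F (Cov (T i) m.support) * ind F (T i a = none))) := by
              intro i
              rw [map_mul, eval_pt_monomial, ha]
              ring
            simp only [h8]
            rw [← Finset.mul_sum, h7, mul_zero]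
          · have h7 := IsRow.tst_symm (k := m.support.card) h2 (by omega)
              (t := fun T => ind F (Cov T m.support))
              (Submodule.subset_span ⟨m.support, le_rfl, rfl⟩) b
            have h8 : ∀ i, w i * eval (fun v : A × B => ind F (T i v.1 = some v.2))
                (monomial m (coeff m g) * ax) =
                coeff m g * (w i * (ind F (Cov (T i) m.support) *
                  ind F ((T i).symm b = none))) := by
              intro i
              rw [map_mul, eval_pt_monomial, hb]
              ring
            simp only [h8]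
            rw [← Finset.mul_sum, h7, mul_zero]
      · apply Finset.sum_eq_zero
        intro i _
        rcases eval_pt_ax (T i) hax with h6 | ⟨h6, _⟩ | ⟨h6, _⟩
        · rw [map_mul, h6]; simp
        · exact absurd h6 hk
        · exact absurd h6 hk
    have hg : g * ax = ∑ m ∈ g.support, monomial m (coeff m g) * ax := by
      rw [← Finset.sum_mul, ← g.as_sum]
    rw [hg]
    simp only [map_sum, Finset.mul_sum]
    rw [Finset.sum_comm]
    exact Finset.sum_eq_zero hmon
  | zero => simp
  | add x y _ _ hx hy =>
    simp only [map_add, mul_add, Finset.sum_add_distrib, hx, hy, add_zero]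
  | smul c x _ hx =>
    have : ∀ i, w i * eval (fun v : A × B => ind F (T i v.1 = some v.2)) (c • x) =
        c * (w i * eval (fun v : A × B => ind F (T i v.1 = some v.2)) x) := by
      intro i
      rw [smul_eval]; ring
    simp only [this, ← Finset.mul_sum, hx, mul_zero]

theorem NS.one_notMem {D : ℕ} (h : HasDesign F D A B) :
    (1 : MvPolynomial (A × B) F) ∉ NS F A B D := by
  obtain ⟨ι, _, w, T, hw, h1, h2⟩ := h
  intro h3
  have h4 := NS.functional h1 h2 h3
  simp [hw] at h4

end Pool.Agent.H680R2
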