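import Mathlib

set_option autoImplicit false

open Finset

namespace Pool.Agent.H680R2

variable {F : Type} [Field F] {X κ : Type}

/-- The action of permutations on functions of words. -/
def rho (F : Type) [Field F] (κ : Type) (g : Equiv.Perm X) :
    ((κ → X) → F) →ₗ[F] ((κ → X) → F) :=
  LinearMap.funLeft F F (fun x : κ → X => (fun l => g (x l)))

theorem rho_apply (g : Equiv.Perm X) (v : (κ → X) → F) (x : κ → X) :
    rho F κ g v x = v (fun l => g (x l)) := rfl

theorem rho_mul (g h : Equiv.Perm X) (v : (κ → X) → F) :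
    rho F κ (g * h) v = rho F κ h (rho F κ g v) := rfl

theorem rho_one (v : (κ → X) → F) : rho F κ (1 : Equiv.Perm X) v = v := rfl

section kap
variable [DecidableEq X]

/-- The alternating operator of a list of pairs. -/
def kap : List (X × X) → ((κ → X) → F) → ((κ → X) → F)
  | [], v => v
  | (a, b) :: L, v => kap L v - rho F κ (Equiv.swap a b) (kap L v)

/-- `x` avoids the list of pairs. -/
def Off (L : List (X × X)) (x : X) : Prop := ∀ p ∈ L, x ≠ p.1 ∧ x ≠ p.2

/-- pairwise disjoint pairs of the same colour. -/
def Valid (c : X → Bool) : List (X × X) → Prop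
  | [] => True
  | (a, b) :: L => c a = c b ∧ Off L a ∧ Off L b ∧ Valid c L

theorem kap_zero_at (c : X → Bool) (L : List (X × X)) (hL : Valid c L) (v : (κ → X) → F)
    (x : κ → X) (p : X × X) (hp : p ∈ L) (hx : ∀ l, x l ≠ p.1 ∧ x l ≠ p.2) :
    kap L v x = 0 := by
  induction L generalizing x with
  | nil => simp at hp
  | cons q L ih =>
    obtain ⟨a, b⟩ := q
    obtain ⟨h1, h2, h3, h4⟩ := hL
    simp only [kap, Pi.sub_apply, rho_apply]
    rcases List.mem_cons.1 hp with hp | hp
    · subst hp
      have : (fun l => Equiv.swap a b (x l)) = x := by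
        funext l
        exact Equiv.swap_apply_of_ne_of_ne (hx l).1 (hx l).2
      rw [this, sub_self]
    · rw [ih h4 x hp hx, ih h4 _ hp]
      · simp
      · intro l
        have ha := h2 p hp
        have hb := h3 p hp
        constructor
        · intro h5
          apply (hx l).1
          have h6 : x l = Equiv.swap a b p.1 := by
            rw [← h5, Equiv.swap_apply_self]
          rw [h6, Equiv.swap_apply_of_ne_of_ne ha.1.symm hb.1.symm]
        · intro h5
          apply (hx l).2
          have h6 : x l = Equiv.swap a b p.2 := by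
            rw [← h5, Equiv.swap_apply_self]
          rw [h6, Equiv.swap_apply_of_ne_of_ne ha.2.symm hb.2.symm]

theorem exists_avoid (c : X → Bool) (L : List (X × X)) (hL : Valid c L) (x : κ → X)
    (T : Finset κ) (hT : T.card < L.length) :
    ∃ p ∈ L, ∀ l ∈ T, x l ≠ p.1 ∧ x l ≠ p.2 := by
  classical
  induction L generalizing T with
  | nil => simp at hT
  | cons q L ih =>
    obtain ⟨a, b⟩ := q
    obtain ⟨h1, h2, h3, h4⟩ := hL
    by_cases hq : ∀ l ∈ T, x l ≠ a ∧ x l ≠ b
    · exact ⟨(a, b), List.mem_cons_self, hq⟩
    · push Not at hq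
      obtain ⟨l0, hl0, hq⟩ := hq
      have hc : (T.filter (fun l => x l ≠ a ∧ x l ≠ b)).card < T.card := by
        apply Finset.card_lt_card
        rw [Finset.filter_ssubset]
        exact ⟨l0, hl0, fun h => h.2 (hq h.1)⟩
      simp only [List.length_cons] at hT
      obtain ⟨p, hp, hp2⟩ := ih h4 (T.filter (fun l => x l ≠ a ∧ x l ≠ b)) (by omega)
      refine ⟨p, List.mem_cons_of_mem _ hp, ?_⟩
      intro l hl
      by_cases h5 : x l ≠ a ∧ x l ≠ b
      · exact hp2 l (Finset.mem_filter.2 ⟨hl, h5⟩)
      · by_cases h6 : x l = a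
        · rw [h6]; exact h2 p hp
        · have h7 : x l = b := by
            by_contra h8
            exact h5 ⟨h6, h8⟩
          rw [h7]; exact h3 p hp

theorem kap_zero [Fintype κ] (c : X → Bool) (L : List (X × X)) (hL : Valid c L)
    (hlen : Fintype.card κ < L.length) (v : (κ → X) → F) : kap L v = 0 := by
  funext x
  obtain ⟨p, hp, hp2⟩ := exists_avoid c L hL x Finset.univ (by simpa using hlen)
  exact kap_zero_at c L hL v x p hp (fun l => hp2 l (Finset.mem_univ l))

theorem kap_mem (c : X → Bool) (L : List (X × X)) (hL : Valid c L)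
    (U : Submodule F ((κ → X) → F))
    (hU : ∀ g : Equiv.Perm X, (∀ x, c (g x) = c x) → ∀ u ∈ U, rho F κ g u ∈ U)
    (u : (κ → X) → F) (hu : u ∈ U) : kap L u ∈ U := by
  induction L with
  | nil => exact hu
  | cons q L ih =>
    obtain ⟨a, b⟩ := q
    obtain ⟨h1, h2, h3, h4⟩ := hL
    simp only [kap]
    refine U.sub_mem (ih h4) (hU _ ?_ _ (ih h4))
    intro x
    by_cases hxa : x = a
    · subst hxa; rw [Equiv.swap_apply_left]; exact h1.symm
    · by_cases hxb : x = b
      · subst hxb; rw [Equiv.swap_apply_right]; exact h1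
      · rw [Equiv.swap_apply_of_ne_of_ne hxa hxb]

theorem kap_rho (L : List (X × X)) (g : Equiv.Perm X)
    (hg : ∀ p ∈ L, g p.1 = p.1 ∧ g p.2 = p.2) (u : (κ → X) → F) :
    kap L (rho F κ g u) = rho F κ g (kap L u) := by
  induction L with
  | nil => rfl
  | cons q L ih =>
    obtain ⟨a, b⟩ := q
    simp only [kap]
    rw [ih (fun p hp => hg p (List.mem_cons_of_mem _ hp)), map_sub, ← rho_mul, ← rho_mul]
    have h1 := hg (a, b) List.mem_cons_self
    simp only at h1
    rw [Equiv.mul_swap_eq_swap_mul, h1.1, h1.2]

theorem kap_add (L : List (X × X)) (u v : (κ → X) → F) :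
    kap L (u + v) = kap L u + kap L v := by
  induction L with
  | nil => rfl
  | cons q L ih =>
    obtain ⟨a, b⟩ := q
    simp only [kap, ih, map_add]
    abel

theorem kap_smul (L : List (X × X)) (r : F) (u : (κ → X) → F) :
    kap L (r • u) = r • kap L u := by
  induction L with
  | nil => rfl
  | cons q L ih =>
    obtain ⟨a, b⟩ := q
    simp only [kap, ih, map_smul, smul_sub]

theorem kap_sum {ι : Type} (s : Finset ι) (L : List (X × X)) (u : ι → ((κ → X) → F)) :
    kap L (∑ i ∈ s, u i) = ∑ i ∈ s, kap L (u i) := by
  classical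
  induction s using Finset.induction_on with
  | empty =>
    simp only [Finset.sum_empty]
    have := kap_smul L (0 : F) (0 : (κ → X) → F)
    simpa using this
  | insert i s hi ih =>
    rw [Finset.sum_insert hi, Finset.sum_insert hi, kap_add, ih]

/-- Elements of the list of pairs. -/
def els : List (X × X) → Finset X
  | [] => ∅
  | (a, b) :: L => insert a (insert b (els L))

theorem els_card (L : List (X × X)) : (els L).card ≤ 2 * L.length := by
  induction L with
  | nil => simp [els]
  | cons q L ih =>
    obtain ⟨a, b⟩ := q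
    simp only [els, List.length_cons]
    have h1 := Finset.card_insert_le a (insert b (els L))
    have h2 := Finset.card_insert_le b (els L)
    omega

theorem mem_els (L : List (X × X)) (p : X × X) (hp : p ∈ L) : p.1 ∈ els L ∧ p.2 ∈ els L := by
  induction L with
  | nil => simp at hp
  | cons q L ih =>
    obtain ⟨a, b⟩ := q
    simp only [els]
    rcases List.mem_cons.1 hp with hp | hp
    · subst hp
      simp
    · have := ih hp
      exact ⟨Finset.mem_insert_of_mem (Finset.mem_insert_of_mem this.1),
        Finset.mem_insert_of_mem (Finset.mem_insert_of_mem this.2)⟩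

end kap

section main
variable [DecidableEq X] [Fintype X] [Fintype κ]

/-- Moving a small set into `X₀` by a colour preserving permutation. -/
theorem exists_move (c : X → Bool) (X₀ : Finset X) (m : ℕ)
    (hX₀ : ∀ t : Bool, m ≤ (X₀.filter (fun x => c x = t)).card)
    (r : ℕ) (T : Finset X) (hT : T.card ≤ m) (hr : (T \ X₀).card = r) :
    ∃ h : Equiv.Perm X, (∀ x, c (h x) = c x) ∧ ∀ x ∈ T, h.symm x ∈ X₀ := by
  induction r generalizing T with
  | zero =>
    refine ⟨1, fun x => rfl, fun x hx => ?_⟩
    rw [Finset.card_eq_zero, Finset.sdiff_eq_empty_iff_subset] at hr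
    exact hr hx
  | succ r ih =>
    have hne : (T \ X₀).Nonempty := by
      rw [← Finset.card_pos]; omega
    obtain ⟨t, ht⟩ := hne
    rw [Finset.mem_sdiff] at ht
    -- an element of X₀ \ T of the colour of t
    have hs : ∃ s ∈ X₀, s ∉ T ∧ c s = c t := by
      by_contra hcon
      push Not at hcon
      have hsub : X₀.filter (fun x => c x = c t) ⊆ T.erase t := by
        intro s hs
        rw [Finset.mem_filter] at hs
        rw [Finset.mem_erase]
        refine ⟨?_, ?_⟩
        · rintro rfl
          exact ht.2 hs.1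
        · by_contra h
          exact hcon s hs.1 h hs.2
      have h1 := Finset.card_le_card hsub
      rw [Finset.card_erase_of_mem ht.1] at h1
      have h2 := hX₀ (c t)
      have h3 : 0 < T.card := Finset.card_pos.2 ⟨t, ht.1⟩
      omega
    obtain ⟨s, hs1, hs2, hs3⟩ := hs
    have hst : s ≠ t := by
      rintro rfl
      exact hs2 ht.1
    set T' := insert s (T.erase t) with hT'
    have hcard : T'.card = T.card := by
      rw [hT', Finset.card_insert_of_notMem (by simp [hs2]), Finset.card_erase_of_mem ht.1]
      have : 0 < T.card := Finset.card_pos.2 ⟨t, ht.1⟩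
      omega
    have hd : T' \ X₀ = (T \ X₀).erase t := by
      ext x
      simp only [hT', Finset.mem_sdiff, Finset.mem_insert, Finset.mem_erase]
      constructor
      · rintro ⟨h | h, h2⟩
        · subst h; exact absurd hs1 h2
        · exact ⟨h.1, h.2, h2⟩
      · rintro ⟨h1, h2, h3⟩
        exact ⟨Or.inr ⟨h1, h2⟩, h3⟩
    obtain ⟨h, hc, hh⟩ := ih T' (by omega) (by
      rw [hd, Finset.card_erase_of_mem (Finset.mem_sdiff.2 ht), hr]
      rfl)
    refine ⟨Equiv.swap s t * h, ?_, ?_⟩
    · intro x
      rw [Equiv.Perm.mul_apply]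
      rw [← hc x]
      by_cases h1 : h x = s
      · rw [h1, Equiv.swap_apply_left, hs3]
      · by_cases h2 : h x = t
        · rw [h2, Equiv.swap_apply_right, hs3]
        · rw [Equiv.swap_apply_of_ne_of_ne h1 h2]
    · intro x hx
      have h1 : (Equiv.swap s t * h).symm x = h.symm (Equiv.swap s t x) := by
        rw [Equiv.symm_apply_eq, Equiv.Perm.mul_apply, Equiv.apply_symm_apply,
          Equiv.swap_apply_self]
      rw [h1]
      apply hh
      by_cases h2 : x = t
      · subst h2
        rw [Equiv.swap_apply_right]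
        exact Finset.mem_insert_self _ _
      · have h3 : x ≠ s := by
          rintro rfl
          exact hs2 hx
        rw [Equiv.swap_apply_of_ne_of_ne h3 h2]
        exact Finset.mem_insert_of_mem (Finset.mem_erase.2 ⟨h2, hx⟩)

/-- Invariance modulo `U` under swaps gives invariance under permutations. -/
theorem inv_of_swap (c : X → Bool) (U : Submodule F ((κ → X) → F))
    (hU : ∀ g : Equiv.Perm X, (∀ x, c (g x) = c x) → ∀ u ∈ U, rho F κ g u ∈ U)
    (E : Finset X) (v : (κ → X) → F)
    (hv : ∀ a b, c a = c b → a ∉ E → b ∉ E → v - rho F κ (Equiv.swap a b) v ∈ U)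
    (r : ℕ) (g : Equiv.Perm X) (hr : g.support.card = r) (hg : ∀ x, c (g x) = c x)
    (hgE : ∀ x ∈ E, g x = x) :
    v - rho F κ g v ∈ U := by
  induction r using Nat.strong_induction_on generalizing g with
  | _ r ih =>
    by_cases h1 : g = 1
    · subst h1
      rw [rho_one, sub_self]
      exact U.zero_mem
    · obtain ⟨a, ha⟩ : ∃ a, g a ≠ a := by
        by_contra hcon
        push Not at hcon
        exact h1 (Equiv.ext hcon)
      have haE : a ∉ E := fun h => ha (hgE a h)
      have hbE : g a ∉ E := fun h => ha (g.injective (hgE _ h))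
      have hsw : ∀ x, c (Equiv.swap a (g a) x) = c x := by
        intro x
        by_cases h2 : x = a
        · rw [h2, Equiv.swap_apply_left, hg]
        · by_cases h3 : x = g a
          · rw [h3, Equiv.swap_apply_right, hg]
          · rw [Equiv.swap_apply_of_ne_of_ne h2 h3]
      have hlt := Equiv.Perm.card_support_swap_mul ha
      set g' := Equiv.swap a (g a) * g with hg'
      have hgg' : g = Equiv.swap a (g a) * g' := by
        rw [hg', ← mul_assoc, Equiv.swap_mul_self, one_mul]
      have h2 := ih g'.support.card (by omega) g' rfl (by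
        intro x
        rw [hg', Equiv.Perm.mul_apply, hsw, hg]) (by
        intro x hx
        rw [hg', Equiv.Perm.mul_apply, hgE x hx]
        apply Equiv.swap_apply_of_ne_of_ne
        · rintro rfl; exact haE hx
        · rintro rfl; exact hbE hx)
      have h3 := hv a (g a) (hg a).symm haE hbE
      have h4 : v - rho F κ g v = (v - rho F κ g' v) +
          rho F κ g' (v - rho F κ (Equiv.swap a (g a)) v) := by
        rw [map_sub, ← rho_mul, ← hgg']
        abel
      rw [h4]
      refine U.add_mem h2 (hU g' ?_ _ h3)
      intro x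
      rw [hg', Equiv.Perm.mul_apply, hsw, hg]

/-- The nontriviality lemma. -/
theorem nontriv (c : X → Bool) (X₀ : Finset X)
    (hX₀ : ∀ t : Bool, 2 * Fintype.card κ ≤ (X₀.filter (fun x => c x = t)).card)
    (U U' : Submodule F ((κ → X) → F))
    (hU : ∀ g : Equiv.Perm X, (∀ x, c (g x) = c x) → ∀ u ∈ U, rho F κ g u ∈ U)
    (hU' : ∀ g : Equiv.Perm X, (∀ x, c (g x) = c x) → ∀ u ∈ U', rho F κ g u ∈ U')
    {ι : Type} [Fintype ι] (w : ι → F) (g : ι → Equiv.Perm X)
    (hw : ∑ i, w i = 1) (hg : ∀ i x, c (g i x) = c x) (hg0 : ∀ i, ∀ x ∈ X₀, g i x = x)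
    (hz : ∀ u ∈ U', ∑ i, w i • rho F κ (g i) u ∈ U) : U' ≤ U := by
  -- the claim S(j), by downward induction
  have key : ∀ (r : ℕ) (L : List (X × X)), Valid c L → L.length + r = Fintype.card κ + 1 →
      ∀ u ∈ U', kap L u ∈ U := by
    intro r
    induction r with
    | zero =>
      intro L hL hlen u _
      rw [kap_zero c L hL (by omega) u]
      exact U.zero_mem
    | succ r ih =>
      intro L hL hlen u hu
      set v := kap L u with hv
      -- invariance under swaps
      have hsw : ∀ a b, c a = c b → a ∉ els L → b ∉ els L →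
          v - rho F κ (Equiv.swap a b) v ∈ U := by
        intro a b hab ha hb
        have h1 := ih ((a, b) :: L) ⟨hab, ?_, ?_, hL⟩ (by simp only [List.length_cons]; omega) u hu
        · exact h1
        · intro p hp
          have := mem_els L p hp
          exact ⟨fun h => ha (h ▸ this.1), fun h => ha (h ▸ this.2)⟩
        · intro p hp
          have := mem_els L p hp
          exact ⟨fun h => hb (h ▸ this.1), fun h => hb (h ▸ this.2)⟩
      have hinv : ∀ g' : Equiv.Perm X, (∀ x, c (g' x) = c x) → (∀ x ∈ els L, g' x = x) →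
          v - rho F κ g' v ∈ U := by
        intro g' h1 h2
        exact inv_of_swap c U hU (els L) v hsw _ g' rfl h1 h2
      obtain ⟨h, hc, hh⟩ := exists_move c X₀ (2 * Fintype.card κ) hX₀ _ (els L)
        ((els_card L).trans (by omega)) rfl
      have hc' : ∀ x, c (h⁻¹ x) = c x := by
        intro x
        have := hc (h⁻¹ x)
        rw [show h (h⁻¹ x) = x from h.apply_symm_apply x] at this
        exact this.symm
      -- the conjugated combination
      have hconj : ∀ i, ∀ x ∈ els L, (h * g i * h⁻¹) x = x := by
        intro i x hx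
        have h1 : h⁻¹ x ∈ X₀ := hh x hx
        rw [Equiv.Perm.mul_apply, Equiv.Perm.mul_apply, hg0 i _ h1]; exact h.apply_symm_apply x
      have hcc : ∀ i x, c ((h * g i * h⁻¹) x) = c x := by
        intro i x
        rw [Equiv.Perm.mul_apply, Equiv.Perm.mul_apply, hc, hg, hc']
      -- z' u ∈ U
      have h5 : ∑ i, w i • rho F κ (h * g i * h⁻¹) u ∈ U := by
        have h6 := hz (rho F κ h u) (hU' h hc u hu)
        have h7 := hU h⁻¹ hc' _ h6
        rw [map_sum] at h7
        convert h7 using 2 with i
        rw [map_smul, ← rho_mul, ← rho_mul]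
        rw [mul_assoc]
      -- z' v ∈ U
      have h6 : ∑ i, w i • rho F κ (h * g i * h⁻¹) v ∈ U := by
        have h7 := kap_mem c L hL U hU _ h5
        rw [kap_sum] at h7
        convert h7 using 2 with i
        rw [kap_smul, kap_rho]
        intro p hp
        have := mem_els L p hp
        exact ⟨hconj i _ this.1, hconj i _ this.2⟩
      -- v ∈ U
      have h7 : v = ∑ i, w i • (v - rho F κ (h * g i * h⁻¹) v) +
          ∑ i, w i • rho F κ (h * g i * h⁻¹) v := by
        rw [← Finset.sum_add_distrib]
        have : ∀ i, w i • (v - rho F κ (h * g i * h⁻¹) v) + w i • rho F κ (h * g i * h⁻¹) v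
            = w i • v := by
          intro i
          rw [← smul_add, sub_add_cancel]
        simp only [this]
        rw [← Finset.sum_smul, hw, one_smul]
      rw [h7]
      refine U.add_mem (U.sum_mem (fun i _ => U.smul_mem _ ?_)) h6
      exact hinv _ (hcc i) (hconj i)
  intro u hu
  exact key (Fintype.card κ + 1) [] trivial (by simp) u hu

end main

end Pool.Agent.H680R2
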