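import Mathlib
import Pool.Agent.H680R2.PhpFlip
import Pool.Agent.H680R2.PhpNontriv

set_option autoImplicit false

open scoped Classical
open Finset

namespace Pool.Agent.H680R2

variable {F : Type} [Field F] {X κ : Type}

/-- Signed combinations of permutations from `H` of total weight one. -/
def IsComb (H : Equiv.Perm X → Prop) (z : ((κ → X) → F) →ₗ[F] ((κ → X) → F)) : Prop :=
  ∃ (ι : Type) (_ : Fintype ι) (w : ι → F) (g : ι → Equiv.Perm X),
    ∑ i, w i = 1 ∧ (∀ i, H (g i)) ∧ ∀ v, z v = ∑ i, w i • rho F κ (g i) v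

theorem IsComb.id {H : Equiv.Perm X → Prop} (h1 : H 1) :
    IsComb H (LinearMap.id : ((κ → X) → F) →ₗ[F] ((κ → X) → F)) := by
  refine ⟨Unit, inferInstance, fun _ => 1, fun _ => 1, by simp, fun _ => h1, ?_⟩
  intro v
  simp [rho_one]

theorem IsComb.comp {H : Equiv.Perm X → Prop} (hmul : ∀ a b, H a → H b → H (a * b))
    {z1 z2 : ((κ → X) → F) →ₗ[F] ((κ → X) → F)} (h1 : IsComb H z1) (h2 : IsComb H z2) :
    IsComb H (z1 ∘ₗ z2) := by
  obtain ⟨ι1, _, w1, g1, hw1, hg1, hz1⟩ := h1
  obtain ⟨ι2, _, w2, g2, hw2, hg2, hz2⟩ := h2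
  refine ⟨ι1 × ι2, inferInstance, fun i => w1 i.1 * w2 i.2, fun i => g2 i.2 * g1 i.1, ?_,
    fun i => hmul _ _ (hg2 _) (hg1 _), ?_⟩
  · rw [Fintype.sum_prod_type]
    simp only [← Finset.mul_sum, hw2, mul_one, hw1]
  · intro v
    rw [LinearMap.comp_apply, hz1, Fintype.sum_prod_type]
    refine Finset.sum_congr rfl (fun i _ => ?_)
    rw [hz2, map_sum, Finset.smul_sum]
    refine Finset.sum_congr rfl (fun j _ => ?_)
    rw [map_smul, smul_smul, rho_mul]

/-- The flip operator. -/
theorem exists_flip_op [Fintype X] [Fintype κ] (P S : Finset X) (hd : Disjoint P S)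
    (h : HasDesign F (Fintype.card κ) {x // x ∈ P} {x // x ∈ S}) :
    ∃ z : ((κ → X) → F) →ₗ[F] ((κ → X) → F),
      IsComb (fun g => (∀ x, x ∉ P → x ∉ S → g x = x) ∧ ∀ x, (x ∈ P ∨ x ∈ S) →
        (g x ∈ P ∨ g x ∈ S)) z ∧
      ∀ v x, z v x ≠ 0 → ∃ y, v y ≠ 0 ∧ FlipRel P S x y := by
  obtain ⟨ι, _, w, T, hw, h1, h2⟩ := h
  refine ⟨∑ i, w i • rho F κ (flipPerm hd (T i)), ⟨ι, inferInstance, w,
    fun i => flipPerm hd (T i), hw, ?_, ?_⟩, ?_⟩
  · intro i
    refine ⟨fun x hx1 hx2 => ?_, ?_⟩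
    · rw [flipPerm_apply]
      exact flipFun_out (T i) hx1 hx2
    · intro x hx
      rw [flipPerm_apply]
      rcases hx with hx | hx
      · rw [flipFun_P (T i) hx]
        cases hT : T i ⟨x, hx⟩ with
        | none => simp [hx]
        | some y => simp
      · rw [flipFun_S hd (T i) hx]
        cases hT : (T i).symm ⟨x, hx⟩ with
        | none => simp [hx]
        | some y => simp
  · intro v
    simp
  · intro v x hne
    have h3 : (∑ i, w i • rho F κ (flipPerm hd (T i))) v x
        = ∑ y, v y * ∑ i, w i * ind F (∀ l, flipPerm hd (T i) (x l) = y l) := by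
      simp only [LinearMap.sum_apply, LinearMap.smul_apply, Finset.sum_apply, Pi.smul_apply,
        rho_apply, smul_eq_mul, Finset.mul_sum]
      rw [Finset.sum_comm]
      refine Finset.sum_congr rfl (fun i _ => ?_)
      rw [Finset.sum_eq_single (fun l => flipPerm hd (T i) (x l))]
      · rw [ind_true (fun l => rfl)]
        ring
      · intro y _ hy
        rw [ind_false]
        · ring
        · intro h4
          apply hy
          funext l
          exact (h4 l).symm
      · intro h4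
        exact absurd (Finset.mem_univ _) h4
    rw [h3] at hne
    obtain ⟨y, _, hy⟩ := Finset.exists_ne_zero_of_sum_ne_zero hne
    refine ⟨y, left_ne_zero_of_mul hy, ?_⟩
    exact flip_rel hd h1 h2 le_rfl x y (right_ne_zero_of_mul hy)

/-- The combined flip relation. -/
def CRel (Y S : Finset X) (x y : κ → X) : Prop :=
  ∀ l, (x l ∉ Y ∧ y l = x l) ∨ (x l ∈ Y ∧ x l ∉ S ∧ y l ∈ S) ∨
    (x l ∈ S ∧ y l ∈ Y ∧ y l ∉ S)

theorem crel_of_flip {YA YB SA SB : Finset X} (hY : Disjoint YA YB) (hSA : SA ⊆ YA)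
    (hSB : SB ⊆ YB) (x x' y : κ → X) (h1 : FlipRel (YA \ SA) SA x x')
    (h2 : FlipRel (YB \ SB) SB x' y) : CRel (YA ∪ YB) (SA ∪ SB) x y := by
  intro l
  have hY' : ∀ t, t ∈ YA → t ∉ YB := fun t h h' => Finset.disjoint_left.1 hY h h'
  have h3 := h1 l
  have h4 := h2 l
  simp only [Finset.mem_sdiff, Finset.mem_union] at *
  have hA : ∀ t, t ∈ SA → t ∈ YA := fun t h => hSA h
  have hB : ∀ t, t ∈ SB → t ∈ YB := fun t h => hSB h
  rcases h3 with ⟨h5, h6, h7⟩ | ⟨h5, h6⟩ | ⟨h5, h6⟩
  · rw [h7] at h4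
    have h5' : x l ∉ YA := by
      intro h; exact h5 ⟨h, h6⟩
    rcases h4 with ⟨h8, h9, h10⟩ | ⟨h8, h9⟩ | ⟨h8, h9⟩
    · left
      refine ⟨?_, h10⟩
      rintro (h | h)
      · exact h5' h
      · exact h8 ⟨h, h9⟩
    · right; left
      refine ⟨Or.inr h8.1, ?_, Or.inr h9⟩
      rintro (h | h)
      · exact h6 h
      · exact h8.2 h
    · right; right
      refine ⟨Or.inr h8, Or.inr h9.1, ?_⟩
      rintro (h | h)
      · exact hY' _ (hA _ h) h9.1
      · exact h9.2 h
  · -- x l ∈ YA \ SA, x' l ∈ SA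
    have h7 : x' l ∉ YB := hY' _ (hA _ h6)
    have h8 : y l = x' l := by
      rcases h4 with ⟨_, _, h10⟩ | ⟨h8, _⟩ | ⟨h8, _⟩
      · exact h10
      · exact absurd h8.1 h7
      · exact absurd (hB _ h8) h7
    right; left
    refine ⟨Or.inl h5.1, ?_, Or.inl (h8 ▸ h6)⟩
    rintro (h | h)
    · exact h5.2 h
    · exact hY' _ h5.1 (hB _ h)
  · have h7 : x' l ∉ YB := hY' _ h6.1
    have h8 : y l = x' l := by
      rcases h4 with ⟨_, _, h10⟩ | ⟨h8, _⟩ | ⟨h8, _⟩
      · exact h10
      · exact absurd h8.1 h7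
      · exact absurd (hB _ h8) h7
    right; right
    refine ⟨Or.inl h5, Or.inl (h8 ▸ h6.1), ?_⟩
    rw [h8]
    rintro (h | h)
    · exact h6.2 h
    · exact h7 (hB _ h)

/-- The iterated operators. -/
def iter (z : ℕ → (((κ → X) → F) →ₗ[F] ((κ → X) → F))) : ℕ → (((κ → X) → F) →ₗ[F] ((κ → X) → F))
  | 0 => LinearMap.id
  | m + 1 => (z m) ∘ₗ (iter z m)

theorem iter_comb {H : Equiv.Perm X → Prop} (h1 : H 1) (hmul : ∀ a b, H a → H b → H (a * b))
    (z : ℕ → (((κ → X) → F) →ₗ[F] ((κ → X) → F))) (hz : ∀ m, IsComb H (z m)) (m : ℕ) :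
    IsComb H (iter z m) := by
  induction m with
  | zero => exact IsComb.id h1
  | succ m ih => exact IsComb.comp hmul (hz m) ih

theorem exists_path (z : ℕ → (((κ → X) → F) →ₗ[F] ((κ → X) → F)))
    (Y : Finset X) (S : ℕ → Finset X)
    (hz : ∀ m v x, z m v x ≠ 0 → ∃ y, v y ≠ 0 ∧ CRel Y (S m) x y)
    (v : (κ → X) → F) (m : ℕ) (x : κ → X) (hx : iter z m v x ≠ 0) :
    ∃ q : ℕ → (κ → X), q m = x ∧ (∀ i ≤ m, iter z i v (q i) ≠ 0) ∧
      ∀ i < m, CRel Y (S i) (q (i + 1)) (q i) := by
  induction m generalizing x with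
  | zero =>
    refine ⟨fun _ => x, rfl, ?_, ?_⟩
    · intro i hi
      obtain rfl : i = 0 := by omega
      exact hx
    · intro i hi
      omega
  | succ m ih =>
    obtain ⟨y, hy1, hy2⟩ := hz m (iter z m v) x hx
    obtain ⟨q, h1, h2, h3⟩ := ih y hy1
    refine ⟨fun i => if i = m + 1 then x else q i, by simp, ?_, ?_⟩
    · intro i hi
      by_cases him : i = m + 1
      · subst him
        simpa using hx
      · simp only [him, if_false]
        exact h2 i (by omega)
    · intro i hi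
      have hi' : i ≠ m + 1 := by omega
      simp only [hi', if_false]
      by_cases him : i = m
      · subst him
        simp only [if_true]
        rw [h1]
        exact hy2
      · have : i + 1 ≠ m + 1 := by omega
        simp only [this, if_false]
        exact h3 i (by omega)

theorem path_zero [Fintype κ] (z : ℕ → (((κ → X) → F) →ₗ[F] ((κ → X) → F)))
    (Y : Finset X) (S : ℕ → Finset X) (hSY : ∀ m, S m ⊆ Y)
    (hdis : ∀ m, Disjoint (S m) (S (m + 1)))
    (hz : ∀ m v x, z m v x ≠ 0 → ∃ y, v y ≠ 0 ∧ CRel Y (S m) x y)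
    (Q : Finset X) (hQ : ∀ x, x ∉ Q → x ∈ Y ∧ ∀ m, x ∉ S m)
    (v : (κ → X) → F)
    (hv : ∀ i ≤ Fintype.card κ, ∀ x : κ → X, (∀ l, x l ∈ Q) → iter z i v x = 0) :
    iter z (Fintype.card κ) v = 0 := by
  by_contra hne
  obtain ⟨x, hx⟩ : ∃ x, iter z (Fintype.card κ) v x ≠ 0 := by
    by_contra hcon
    push Not at hcon
    exact hne (funext hcon)
  obtain ⟨q, _, h2, h3⟩ := exists_path z Y S hz v _ x hx
  have h4 : ∀ i : Fin (Fintype.card κ + 1), ∃ l, q i l ∉ Q := by
    intro i
    by_contra hcon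
    push Not at hcon
    exact h2 i (by omega) (hv i (by omega) (q i) hcon)
  choose f hf using h4
  obtain ⟨i, j, hij, hfij⟩ := Fintype.exists_ne_map_eq_of_card_lt f (by simp)
  -- wlog i < j
  have main : ∀ i j : Fin (Fintype.card κ + 1), i < j → f i = f j → False := by
    intro i j hij hfij
    have h5 := hQ _ (hf j)
    have h6 : ∀ t : ℕ, 1 ≤ t → t ≤ (j : ℕ) → q ((j : ℕ) - t) (f j) ∈ S ((j : ℕ) - t) := by
      intro t
      induction t with
      | zero => intro h; omega
      | succ t ih =>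
        intro _ h8
        by_cases ht : t = 0
        · subst ht
          have h9 := h3 ((j : ℕ) - 1) (by have := j.2; omega) (f j)
          have h10 : (j : ℕ) - 1 + 1 = j := by omega
          rw [h10] at h9
          simp only [zero_add]
          rcases h9 with h9 | h9 | h9
          · exact absurd h5.1 h9.1
          · exact h9.2.2
          · exact absurd h9.1 (h5.2 _)
        · have h11 := ih (by omega) (by omega)
          have h9 := h3 ((j : ℕ) - (t + 1)) (by have := j.2; omega) (f j)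
          have h10 : (j : ℕ) - (t + 1) + 1 = (j : ℕ) - t := by omega
          rw [h10] at h9
          rcases h9 with h9 | h9 | h9
          · exact absurd (hSY _ h11) h9.1
          · exact h9.2.2
          · exfalso
            have h12 := hdis ((j : ℕ) - (t + 1))
            rw [h10] at h12
            exact Finset.disjoint_left.1 h12 h9.1 h11
    have h7 := h6 ((j : ℕ) - i) (by have : (i : ℕ) < j := hij; omega) (by omega)
    have h8 : (j : ℕ) - ((j : ℕ) - i) = i := by
      have : (i : ℕ) < j := hij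
      omega
    rw [h8, ← hfij] at h7
    exact (hQ _ (hf i)).2 _ h7
  rcases lt_or_gt_of_ne hij with h | h
  · exact main i j h hfij
  · exact main j i h hfij.symm

end Pool.Agent.H680R2
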