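import Mathlib
import Pool.Agent.H680R2.PhpPath

set_option autoImplicit false

open scoped Classical
open Finset

namespace Pool.Agent.H680R2

variable {F : Type} [Field F] {X κ : Type}

theorem exists_split (XA : Finset X) (m q n₀ : ℕ) (hq : 0 < q)
    (h : m + q + 2 * n₀ ≤ XA.card) :
    ∃ Z Y S0 S1 : Finset X, Z ⊆ XA ∧ Y ⊆ XA ∧ Disjoint Z Y ∧ XA ⊆ Z ∪ Y ∧ m ≤ Z.card ∧
      Z.card ≤ m + q ∧ S0 ⊆ Y ∧ S1 ⊆ Y ∧ Disjoint S0 S1 ∧ S0.card = n₀ ∧ S1.card = n₀ ∧
      ∃ j, (Y \ S0).card = n₀ + j * q ∧ (Y \ S1).card = n₀ + j * q := by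
  set r := (XA.card - m - 2 * n₀) % q with hr
  have hrq : r < q := Nat.mod_lt _ hq
  obtain ⟨Z, hZ, hZc⟩ := Finset.exists_subset_card_eq (s := XA) (n := m + r) (by omega)
  have hYc : (XA \ Z).card = 2 * n₀ + ((XA.card - m - 2 * n₀) / q) * q := by
    have h1 := Nat.mod_add_div (XA.card - m - 2 * n₀) q
    rw [Finset.card_sdiff_of_subset hZ, hZc]
    have h2 : q * ((XA.card - m - 2 * n₀) / q) = ((XA.card - m - 2 * n₀) / q) * q := mul_comm _ _
    omega
  obtain ⟨S0, hS0, hS0c⟩ := Finset.exists_subset_card_eq (s := XA \ Z) (n := n₀) (by omega)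
  have h3 : ((XA \ Z) \ S0).card = n₀ + ((XA.card - m - 2 * n₀) / q) * q := by
    rw [Finset.card_sdiff_of_subset hS0, hS0c, hYc]; omega
  obtain ⟨S1, hS1, hS1c⟩ := Finset.exists_subset_card_eq (s := (XA \ Z) \ S0) (n := n₀) (by omega)
  have hS1' : S1 ⊆ XA \ Z := hS1.trans Finset.sdiff_subset
  refine ⟨Z, XA \ Z, S0, S1, hZ, Finset.sdiff_subset, Finset.disjoint_sdiff, ?_, by omega,
    by omega, hS0, hS1', ?_, hS0c, hS1c, (XA.card - m - 2 * n₀) / q, h3, ?_⟩
  · intro x hx
    simp only [Finset.mem_union, Finset.mem_sdiff]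
    tauto
  · exact (Finset.disjoint_of_subset_left hS1 Finset.sdiff_disjoint).symm
  · rw [Finset.card_sdiff_of_subset hS1', hS1c, hYc]; omega

/-- The main linear algebra input. -/
theorem exists_phi [Fintype X] [Fintype κ] (p : ℕ) [CharP F p] (hp : 0 < p) (c : X → Bool)
    (hbig : ∀ t : Bool, 2 * Fintype.card κ + p ^ Fintype.card κ + 2 * nD p (Fintype.card κ) ≤
      (univ.filter (fun x => c x = t)).card) :
    ∃ (X₀ Q : Finset X)
      (Φ : ((κ → X) → F) →ₗ[F] (Fin (Fintype.card κ + 1) → ({x : κ → X // ∀ l, x l ∈ Q} → F)))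
      (z : ((κ → X) → F) →ₗ[F] ((κ → X) → F)),
      (∀ t : Bool, 2 * Fintype.card κ ≤ (X₀.filter (fun x => c x = t)).card) ∧
      Q.card ≤ 2 * (2 * Fintype.card κ + p ^ Fintype.card κ) + 4 * nD p (Fintype.card κ) ∧
      IsComb (fun g => (∀ x, c (g x) = c x) ∧ ∀ x ∈ X₀, g x = x) z ∧
      ∀ v, Φ v = 0 → z v = 0 := by
  set K := Fintype.card κ with hK
  set n₀ := nD p K with hn₀
  have hq : 0 < p ^ K := pow_pos hp K
  have hsplit : ∀ t : Bool, ∃ Z Y S0 S1 : Finset X, Z ⊆ univ.filter (fun x => c x = t) ∧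
      Y ⊆ univ.filter (fun x => c x = t) ∧ Disjoint Z Y ∧
      univ.filter (fun x => c x = t) ⊆ Z ∪ Y ∧ 2 * K ≤ Z.card ∧
      Z.card ≤ 2 * K + p ^ K ∧ S0 ⊆ Y ∧ S1 ⊆ Y ∧ Disjoint S0 S1 ∧ S0.card = n₀ ∧ S1.card = n₀ ∧
      ∃ j, (Y \ S0).card = n₀ + j * p ^ K ∧ (Y \ S1).card = n₀ + j * p ^ K := by
    intro t
    exact exists_split _ (2 * K) (p ^ K) n₀ hq (hbig t)
  choose Z Y S0 S1 hZ hY hZY hcov hZ1 hZ2 hS0 hS1 hSd hS0c hS1c j hj0 hj1 using hsplit
  -- the sets at time `m`
  set S : Bool → ℕ → Finset X := fun t m => if m % 2 = 0 then S0 t else S1 t with hS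
  have hSY : ∀ t m, S t m ⊆ Y t := by
    intro t m
    simp only [hS]
    split_ifs
    · exact hS0 t
    · exact hS1 t
  have hSd' : ∀ t m, Disjoint (S t m) (S t (m + 1)) := by
    intro t m
    simp only [hS]
    rcases Nat.mod_two_eq_zero_or_one m with h | h
    · have h2 : (m + 1) % 2 = 1 := by omega
      simp only [h, h2, if_true]
      simpa using hSd t
    · have h2 : (m + 1) % 2 = 0 := by omega
      simp only [h, h2, if_true]
      simpa using (hSd t).symm
  have hSc : ∀ t m, (S t m).card = n₀ := by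
    intro t m
    simp only [hS]
    split_ifs
    · exact hS0c t
    · exact hS1c t
  have hSj : ∀ t m, (Y t \ S t m).card = n₀ + j t * p ^ K := by
    intro t m
    simp only [hS]
    split_ifs
    · exact hj0 t
    · exact hj1 t
  have hcY : ∀ t x, x ∈ Y t → c x = t := by
    intro t x hx
    have := hY t hx
    simpa using this
  have hcZ : ∀ t x, x ∈ Z t → c x = t := by
    intro t x hx
    have := hZ t hx
    simpa using this
  have hdes : ∀ t m, HasDesign F K {x // x ∈ Y t \ S t m} {x // x ∈ S t m} := by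
    intro t m
    apply Eqv.hasDesign (eqv_main p K F n₀ (j t) le_rfl)
    · rw [Fintype.card_coe, hSj]
    · rw [Fintype.card_coe, hSc]
  have hop : ∀ t m, ∃ z : ((κ → X) → F) →ₗ[F] ((κ → X) → F),
      IsComb (fun g => (∀ x, x ∉ Y t \ S t m → x ∉ S t m → g x = x) ∧
        ∀ x, (x ∈ Y t \ S t m ∨ x ∈ S t m) → (g x ∈ Y t \ S t m ∨ g x ∈ S t m)) z ∧
      ∀ v x, z v x ≠ 0 → ∃ y, v y ≠ 0 ∧ FlipRel (Y t \ S t m) (S t m) x y := by
    intro t m
    exact exists_flip_op _ _ Finset.sdiff_disjoint (hdes t m)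
  choose zz hzz1 hzz2 using hop
  set X₀ := Z true ∪ Z false with hX₀
  set H : Equiv.Perm X → Prop := fun g => (∀ x, c (g x) = c x) ∧ ∀ x ∈ X₀, g x = x with hH
  have hH1 : H 1 := ⟨fun x => rfl, fun x _ => rfl⟩
  have hHmul : ∀ a b, H a → H b → H (a * b) := by
    intro a b ha hb
    refine ⟨fun x => ?_, fun x hx => ?_⟩
    · rw [Equiv.Perm.mul_apply, ha.1, hb.1]
    · rw [Equiv.Perm.mul_apply, hb.2 x hx, ha.2 x hx]
  have hZnotY : ∀ t t' x, x ∈ Z t → x ∉ Y t' := by
    intro t t' x hx hx'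
    have h1 := hcZ t x hx
    have h2 := hcY t' x hx'
    have h3 : t = t' := by rw [← h1, ← h2]
    subst h3
    exact Finset.disjoint_left.1 (hZY t) hx hx'
  have hzzH : ∀ t m, IsComb H (zz t m) := by
    intro t m
    obtain ⟨ι, inst, w, g, hw, hg, hz⟩ := hzz1 t m
    refine ⟨ι, inst, w, g, hw, fun i => ?_, hz⟩
    obtain ⟨h1, h2⟩ := hg i
    refine ⟨fun x => ?_, fun x hx => ?_⟩
    · by_cases hx : x ∈ Y t \ S t m ∨ x ∈ S t m
      · have h3 := h2 x hx
        have h4 : x ∈ Y t := by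
          rcases hx with hx | hx
          · exact (Finset.mem_sdiff.1 hx).1
          · exact hSY t m hx
        have h5 : g i x ∈ Y t := by
          rcases h3 with hx | hx
          · exact (Finset.mem_sdiff.1 hx).1
          · exact hSY t m hx
        rw [hcY t _ h4, hcY t _ h5]
      · push Not at hx
        rw [h1 x hx.1 hx.2]
    · have h3 : x ∉ Y t := by
        rcases Finset.mem_union.1 hx with h | h
        · exact hZnotY _ _ _ h
        · exact hZnotY _ _ _ h
      exact h1 x (fun h => h3 (Finset.mem_sdiff.1 h).1) (fun h => h3 (hSY t m h))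
  set zm : ℕ → (((κ → X) → F) →ₗ[F] ((κ → X) → F)) := fun m => (zz true m) ∘ₗ (zz false m) with hzm
  have hzmH : ∀ m, IsComb H (zm m) := fun m => IsComb.comp hHmul (hzzH true m) (hzzH false m)
  have hYdis : Disjoint (Y true) (Y false) := by
    rw [Finset.disjoint_left]
    intro x h1 h2
    have h3 := hcY _ _ h1
    rw [hcY _ _ h2] at h3
    exact absurd h3 (by simp)
  set YY := Y true ∪ Y false with hYY
  have hzmr : ∀ m v x, zm m v x ≠ 0 → ∃ y, v y ≠ 0 ∧ CRel YY (S true m ∪ S false m) x y := by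
    intro m v x hne
    obtain ⟨x', hx', hr1⟩ := hzz2 true m (zz false m v) x hne
    obtain ⟨y, hy, hr2⟩ := hzz2 false m v x' hx'
    exact ⟨y, hy, crel_of_flip hYdis (hSY true m) (hSY false m) x x' y hr1 hr2⟩
  set Q := X₀ ∪ ((S0 true ∪ S0 false) ∪ (S1 true ∪ S1 false)) with hQ
  refine ⟨X₀, Q, LinearMap.pi (fun i : Fin (K + 1) => (LinearMap.funLeft F F
    (fun x : {x : κ → X // ∀ l, x l ∈ Q} => (x : κ → X))) ∘ₗ (iter zm i)), iter zm K, ?_, ?_,
    iter_comb hH1 hHmul zm hzmH K, ?_⟩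
  · intro t
    refine (hZ1 t).trans (Finset.card_le_card ?_)
    intro x hx
    rw [Finset.mem_filter]
    refine ⟨?_, hcZ t x hx⟩
    rw [hX₀, Finset.mem_union]
    cases t
    · exact Or.inr hx
    · exact Or.inl hx
  · have h1 : Q.card ≤ _ := Finset.card_union_le X₀ ((S0 true ∪ S0 false) ∪ (S1 true ∪ S1 false))
    have h2 := Finset.card_union_le (S0 true ∪ S0 false) (S1 true ∪ S1 false)
    have h3 := Finset.card_union_le (S0 true) (S0 false)
    have h4 := Finset.card_union_le (S1 true) (S1 false)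
    have h5 : X₀.card ≤ _ := Finset.card_union_le (Z true) (Z false)
    have h6 := hZ2 true
    have h7 := hZ2 false
    have h8 := hS0c true
    have h9 := hS0c false
    have h10 := hS1c true
    have h11 := hS1c false
    omega
  · intro v hv
    refine path_zero zm YY (fun m => S true m ∪ S false m) ?_ ?_ hzmr Q ?_ v ?_
    · intro m
      exact Finset.union_subset_union (hSY true m) (hSY false m)
    · intro m
      rw [Finset.disjoint_union_left, Finset.disjoint_union_right, Finset.disjoint_union_right]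
      have hx : ∀ t t' m m', t ≠ t' → Disjoint (S t m) (S t' m') := by
        intro t t' m m' htt
        rw [Finset.disjoint_left]
        intro x h1 h2
        have h3 := hcY _ _ (hSY _ _ h1)
        rw [hcY _ _ (hSY _ _ h2)] at h3
        exact htt h3.symm
      exact ⟨⟨hSd' true m, hx _ _ _ _ (by simp)⟩, ⟨hx _ _ _ _ (by simp), hSd' false m⟩⟩
    · intro x hx
      rw [hQ] at hx
      simp only [Finset.mem_union, not_or] at hx
      obtain ⟨h1, ⟨h2, h3⟩, ⟨h4, h5⟩⟩ := hx
      constructor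
      · have h6 : x ∈ Z (c x) ∪ Y (c x) := hcov (c x) (by simp)
        rw [hX₀] at h1
        rw [hYY]
        simp only [Finset.mem_union, not_or] at h1 h6 ⊢
        cases hcx : c x with
        | true =>
          rw [hcx] at h6
          rcases h6 with h6 | h6
          · exact absurd h6 h1.1
          · exact Or.inl h6
        | false =>
          rw [hcx] at h6
          rcases h6 with h6 | h6
          · exact absurd h6 h1.2
          · exact Or.inr h6
      · intro m
        simp only [hS, Finset.mem_union, not_or]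
        split_ifs
        · exact ⟨h2, h3⟩
        · exact ⟨h4, h5⟩
    · intro i hi x hx
      have h1 := congrFun (congrFun hv ⟨i, by omega⟩) ⟨x, hx⟩
      simpa using h1

end Pool.Agent.H680R2
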