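import Mathlib
import Pool.Agent.H680R2.PhpNS
import Pool.Agent.H680R2.PhpSetup

set_option autoImplicit false

open scoped Classical
open Finset MvPolynomial

namespace Pool.Agent.H680R2

variable {F : Type} [Field F] {A B : Type} [Fintype A] [Fintype B]

/-- The variable of a pair of letters. -/
noncomputable def yv (F : Type) [Field F] {A B : Type} (s t : A ⊕ B) : MvPolynomial (A × B) F :=
  match s, t with
  | Sum.inl a, Sum.inr b => X (a, b)
  | _, _ => 1

omit [Fintype A] [Fintype B] in
theorem yv_rename (e : Equiv.Perm A) (e' : Equiv.Perm B) (s t : A ⊕ B) :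
    rename (Prod.map e e') (yv F s t) =
      yv F (Equiv.Perm.sumCongr e e' s) (Equiv.Perm.sumCongr e e' t) := by
  rcases s with a | b <;> rcases t with a' | b' <;> simp [yv]

/-- The linear map from functions on words to polynomials. -/
noncomputable def piMap (F : Type) [Field F] (A B : Type) [Fintype A] [Fintype B] (d : ℕ) :
    ((Fin d × Bool → A ⊕ B) → F) →ₗ[F] MvPolynomial (A × B) F :=
  ∑ x : Fin d × Bool → A ⊕ B,
    (LinearMap.proj x : ((Fin d × Bool → A ⊕ B) → F) →ₗ[F] F).smulRight
      (∏ l : Fin d, yv F (x (l, false)) (x (l, true)))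

theorem piMap_apply (d : ℕ) (v : (Fin d × Bool → A ⊕ B) → F) :
    piMap F A B d v = ∑ x, v x • ∏ l : Fin d, yv F (x (l, false)) (x (l, true)) := by
  simp [piMap]

theorem piMap_rho (d : ℕ) (e : Equiv.Perm A) (e' : Equiv.Perm B)
    (v : (Fin d × Bool → A ⊕ B) → F) :
    rename (Prod.map e e') (piMap F A B d (rho F _ (Equiv.Perm.sumCongr e e') v)) =
      piMap F A B d v := by
  rw [piMap_apply, piMap_apply, map_sum]
  refine Fintype.sum_equiv (Equiv.arrowCongr (Equiv.refl _) (Equiv.Perm.sumCongr e e')) _ _ ?_
  intro x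
  rw [map_smul, rho_apply, map_prod]
  congr 1
  refine Finset.prod_congr rfl (fun l _ => ?_)
  rw [yv_rename]
  rfl

theorem exists_sumCongr (g : Equiv.Perm (A ⊕ B)) (hg : ∀ x, (g x).isLeft = x.isLeft) :
    ∃ (e : Equiv.Perm A) (e' : Equiv.Perm B), g = Equiv.Perm.sumCongr e e' := by
  have h := Equiv.Perm.mem_sumCongrHom_range_of_perm_mapsTo_inl (σ := g) (by
    rintro _ ⟨a, rfl⟩
    have := hg (Sum.inl a)
    rw [Sum.isLeft_inl, Sum.isLeft_iff] at this
    obtain ⟨y, hy⟩ := this
    exact ⟨y, hy.symm⟩)
  obtain ⟨⟨e, e'⟩, h⟩ := h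
  exact ⟨e, e', h.symm⟩

/-- Stable families of polynomials pull back to stable subspaces. -/
theorem stable_comap (d : ℕ) (P : Submodule F (MvPolynomial (A × B) F))
    (hP : ∀ (e : Equiv.Perm A) (e' : Equiv.Perm B), ∀ f ∈ P, rename (Prod.map e e') f ∈ P)
    (g : Equiv.Perm (A ⊕ B)) (hg : ∀ x, (g x).isLeft = x.isLeft)
    (u : (Fin d × Bool → A ⊕ B) → F) (hu : u ∈ P.comap (piMap F A B d)) :
    rho F _ g u ∈ P.comap (piMap F A B d) := by
  obtain ⟨e, e', rfl⟩ := exists_sumCongr g hg
  rw [Submodule.mem_comap] at hu ⊢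
  have h1 := piMap_rho d e e' u
  have h2 : piMap F A B d (rho F _ (Equiv.Perm.sumCongr e e') u) =
      rename (Prod.map e.symm e'.symm) (piMap F A B d u) := by
    rw [← h1, rename_rename]
    have : (Prod.map e.symm e'.symm) ∘ (Prod.map e e') = (id : A × B → A × B) := by
      funext ⟨a, b⟩
      simp
    rw [this, rename_id_apply]
  rw [h2]
  exact hP _ _ _ hu

/-! ### Surjectivity -/

omit [Fintype A] [Fintype B] in
theorem exists_word (a0 : A) (k : ℕ) (m : (A × B) →₀ ℕ) (hm : m.sum (fun _ e => e) ≤ k) :
    ∃ (s t : ℕ → A ⊕ B), ∏ l ∈ range k, yv F (s l) (t l) = monomial m 1 := by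
  induction k generalizing m with
  | zero =>
    have h0 : m = 0 := by
      ext v
      by_contra hv
      have hv' : v ∈ m.support := Finsupp.mem_support_iff.2 hv
      have h1 : m v ≤ m.sum (fun _ e => e) :=
        Finset.single_le_sum (f := fun i => m i) (fun _ _ => Nat.zero_le _) hv'
      simp only [Finsupp.coe_zero, Pi.zero_apply] at hv
      omega
    subst h0
    refine ⟨fun _ => Sum.inl a0, fun _ => Sum.inl a0, ?_⟩
    simp
  | succ k ih =>
    by_cases h : m.sum (fun _ e => e) ≤ k
    · obtain ⟨s, t, hst⟩ := ih m h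
      refine ⟨fun l => if l = k then Sum.inl a0 else s l, fun l => if l = k then Sum.inl a0 else t l, ?_⟩
      rw [Finset.prod_range_succ, ← hst]
      simp only [if_true]
      have : yv F (Sum.inl a0 : A ⊕ B) (Sum.inl a0) = 1 := rfl
      rw [this, mul_one]
      refine Finset.prod_congr rfl (fun l hl => ?_)
      have : l ≠ k := by
        rw [Finset.mem_range] at hl
        omega
      simp [this]
    · have hne : m ≠ 0 := by
        rintro rfl
        simp at h
      obtain ⟨v, hv⟩ := Finsupp.ne_iff.1 hne
      simp only [Finsupp.coe_zero, Pi.zero_apply] at hv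
      have hle : Finsupp.single v 1 ≤ m := by
        intro w
        by_cases hw : v = w
        · subst hw; simp; omega
        · simp [Finsupp.single_apply, hw]
      obtain ⟨m', hm'⟩ : ∃ m', m = m' + Finsupp.single v 1 :=
        ⟨m - Finsupp.single v 1, (tsub_add_cancel_of_le hle).symm⟩
      have hsum : m.sum (fun _ e => e) = m'.sum (fun _ e => e) + 1 := by
        rw [hm', Finsupp.sum_add_index' (fun _ => rfl) (fun _ _ _ => rfl)]
        simp
      obtain ⟨s, t, hst⟩ := ih m' (by omega)
      refine ⟨fun l => if l = k then Sum.inl v.1 else s l,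
        fun l => if l = k then Sum.inr v.2 else t l, ?_⟩
      rw [Finset.prod_range_succ]
      simp only [if_true]
      have h1 : yv F (Sum.inl v.1 : A ⊕ B) (Sum.inr v.2) = X v := rfl
      have h2 : ∏ x ∈ range k, yv F (if x = k then Sum.inl v.1 else s x)
          (if x = k then Sum.inr v.2 else t x) = monomial m' 1 := by
        rw [← hst]
        refine Finset.prod_congr rfl (fun l hl => ?_)
        have : l ≠ k := by
          rw [Finset.mem_range] at hl
          omega
        simp [this]
      rw [h1, h2, hm', X, monomial_mul, one_mul]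

theorem piMap_surj (a0 : A) (d : ℕ) (f : MvPolynomial (A × B) F) (hf : f.totalDegree ≤ d) :
    ∃ v, piMap F A B d v = f := by
  have hmon : ∀ m ∈ f.support, monomial m (coeff m f) ∈ LinearMap.range (piMap F A B d) := by
    intro m hm
    have h1 : m.sum (fun _ e => e) ≤ d := (le_totalDegree hm).trans hf
    obtain ⟨s, t, hst⟩ := exists_word (F := F) a0 d m h1
    refine ⟨Pi.single (fun l => if l.2 = false then s l.1 else t l.1) (coeff m f), ?_⟩
    rw [piMap_apply, Finset.sum_eq_single (fun l => if l.2 = false then s l.1 else t l.1)]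
    · rw [Pi.single_eq_same]
      have h2 : ∏ l : Fin d, yv F (s l) (t l) = monomial m 1 := by
        rw [← hst]
        exact Fin.prod_univ_eq_prod_range (fun l => yv F (s l) (t l)) d
      simp only [if_true, Bool.true_eq_false, if_false]
      rw [h2, smul_monomial, smul_eq_mul, mul_one]
    · intro x _ hx
      rw [Pi.single_eq_of_ne hx, zero_smul]
    · intro h
      exact absurd (Finset.mem_univ _) h
  have : f ∈ LinearMap.range (piMap F A B d) := by
    rw [f.as_sum]
    exact Submodule.sum_mem _ hmon
  exact this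

/-! ### The chain bound -/

theorem exists_stable_index {W : Type} [AddCommGroup W] [Module F W] [FiniteDimensional F W]
    (d : ℕ) (f : Fin d → ℕ → Submodule F W) (hf : ∀ k E, f k E ≤ f k (E + 1)) :
    ∃ E ≤ d * Module.finrank F W, ∀ k, f k E = f k (E + 1) := by
  by_contra hcon
  push Not at hcon
  set s : ℕ → ℕ := fun E => ∑ k, Module.finrank F (f k E) with hs
  have hstep : ∀ E ≤ d * Module.finrank F W, s E < s (E + 1) := by
    intro E hE
    obtain ⟨k, hk⟩ := hcon E hE
    apply Finset.sum_lt_sum
    · intro i _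
      exact Submodule.finrank_mono (hf i E)
    · exact ⟨k, Finset.mem_univ k, Submodule.finrank_lt_finrank_of_lt (lt_of_le_of_ne (hf k E) hk)⟩
  have hlow : ∀ E ≤ d * Module.finrank F W + 1, E ≤ s E := by
    intro E
    induction E with
    | zero => intro _; exact Nat.zero_le _
    | succ E ih =>
      intro hE
      have h1 := ih (by omega)
      have h2 := hstep E (by omega)
      omega
  have hup : ∀ E, s E ≤ d * Module.finrank F W := by
    intro E
    have : s E ≤ ∑ _k : Fin d, Module.finrank F W :=
      Finset.sum_le_sum (fun k _ => Submodule.finrank_le _)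
    simpa using this
  have h1 := hlow (d * Module.finrank F W + 1) le_rfl
  have h2 := hup (d * Module.finrank F W + 1)
  omega

end Pool.Agent.H680R2
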