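import Mathlib
import Pool.Agent.H680R2.PhpPi

set_option autoImplicit false

open scoped Classical
open Finset MvPolynomial

namespace Pool.Agent.H680R2

variable {F : Type} [Field F] {A B : Type} [Fintype A] [Fintype B]

/-- The bound on the rank of the test map. -/
def rkB (p d : ℕ) : ℕ :=
  (d * 2 + 1) * (2 * (2 * (d * 2) + p ^ (d * 2)) + 4 * nD p (d * 2)) ^ (d * 2)

theorem finrank_test {X κ : Type} [Fintype X] [Fintype κ] (Q : Finset X) :
    Module.finrank F (Fin (Fintype.card κ + 1) → ({x : κ → X // ∀ l, x l ∈ Q} → F)) =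
      (Fintype.card κ + 1) * Q.card ^ Fintype.card κ := by
  have hc : Fintype.card {x : κ → X // ∀ l, x l ∈ Q} = Q.card ^ Fintype.card κ := by
    have e : {x : κ → X // ∀ l, x l ∈ Q} ≃ (κ → {x // x ∈ Q}) :=
      Equiv.subtypePiEquivPi (p := fun _ x => x ∈ Q)
    rw [Fintype.card_congr e, Fintype.card_fun, Fintype.card_coe]
  rw [Module.finrank_pi_fintype]
  simp [hc]

theorem exists_stable (p : ℕ) [CharP F p] (hp : 0 < p) (d : ℕ) (a0 : A)
    (hA : 2 * (d * 2) + p ^ (d * 2) + 2 * nD p (d * 2) ≤ Fintype.card A)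
    (hB : 2 * (d * 2) + p ^ (d * 2) + 2 * nD p (d * 2) ≤ Fintype.card B) :
    ∃ E ≤ d * rkB p d, ∀ k < d, ∀ f : MvPolynomial (A × B) F, f.totalDegree ≤ k →
      f ∈ NS F A B (k + E + 1) → f ∈ NS F A B (k + E) := by
  have hK : Fintype.card (Fin d × Bool) = d * 2 := by simp
  have hbig : ∀ t : Bool, 2 * Fintype.card (Fin d × Bool) + p ^ Fintype.card (Fin d × Bool) +
      2 * nD p (Fintype.card (Fin d × Bool)) ≤
      (univ.filter (fun x : A ⊕ B => x.isLeft = t)).card := by
    intro t
    rw [hK]
    cases t with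
    | true =>
      refine hA.trans ?_
      rw [← Finset.card_univ]
      apply Finset.card_le_card_of_injOn (fun a => Sum.inl a)
      · intro a _
        simp
      · intro a _ b _ hab
        simpa using hab
    | false =>
      refine hB.trans ?_
      rw [← Finset.card_univ]
      apply Finset.card_le_card_of_injOn (fun a => Sum.inr a)
      · intro a _
        simp
      · intro a _ b _ hab
        simpa using hab
  obtain ⟨X₀, Q, Φ, z, hX₀, hQ, hz, hker⟩ := exists_phi (F := F) (κ := Fin d × Bool) p hp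
    (fun x : A ⊕ B => x.isLeft) hbig
  set U : ℕ → ℕ → Submodule F ((Fin d × Bool → A ⊕ B) → F) := fun k E =>
    (restrictTotalDegree (A × B) F k ⊓ NS F A B (k + E)).comap (piMap F A B d) with hU
  have hUmono : ∀ k E, U k E ≤ U k (E + 1) := by
    intro k E
    apply Submodule.comap_mono
    apply inf_le_inf_left
    exact NS.mono (by omega)
  have hUst : ∀ k E (g : Equiv.Perm (A ⊕ B)), (∀ x, (g x).isLeft = x.isLeft) →
      ∀ u ∈ U k E, rho F _ g u ∈ U k E := by
    intro k E g hg u hu
    refine stable_comap d _ ?_ g hg u hu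
    intro e e' f hf
    refine ⟨?_, NS.rename hf.2 e e'⟩
    have h1 : f.totalDegree ≤ k := (mem_restrictTotalDegree _ _ _).1 hf.1
    exact (mem_restrictTotalDegree _ _ _).2 ((totalDegree_rename_le _ f).trans h1)
  obtain ⟨E, hE, hstab⟩ := exists_stable_index d (fun k E => (U k E).map Φ)
    (fun k E => Submodule.map_mono (hUmono k E))
  have hEb : E ≤ d * rkB p d := by
    refine hE.trans (Nat.mul_le_mul_left d ?_)
    rw [finrank_test, hK]
    rw [hK] at hQ
    exact Nat.mul_le_mul_left _ (Nat.pow_le_pow_left hQ _)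
  refine ⟨E, hEb, ?_⟩
  intro k hk f hf1 hf2
  have hle : U k (E + 1) ≤ U k E := by
    obtain ⟨ι, _, w, g, hw, hg, hzz⟩ := hz
    refine nontriv (fun x : A ⊕ B => x.isLeft) X₀ hX₀ (U k E) (U k (E + 1)) (hUst k E)
      (hUst k (E + 1)) w g hw (fun i => (hg i).1) (fun i => (hg i).2) ?_
    intro u hu
    have h1 : Φ u ∈ (U k (E + 1)).map Φ := Submodule.mem_map_of_mem hu
    have h2 : (U k E).map Φ = (U k (E + 1)).map Φ := hstab ⟨k, hk⟩
    rw [← h2] at h1
    obtain ⟨u', hu', hu2⟩ := h1
    have h3 : z (u - u') = 0 := hker _ (by rw [map_sub, hu2, sub_self])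
    rw [map_sub, sub_eq_zero] at h3
    rw [← hzz, h3, hzz]
    exact Submodule.sum_mem _ (fun i _ => Submodule.smul_mem _ _ (hUst k E _ (hg i).1 _ hu'))
  obtain ⟨v, hv⟩ := piMap_surj a0 d f (hf1.trans hk.le)
  have h1 : v ∈ U k (E + 1) := by
    show piMap F A B d v ∈ restrictTotalDegree (A × B) F k ⊓ NS F A B (k + (E + 1))
    rw [hv]
    exact ⟨(mem_restrictTotalDegree _ _ _).2 hf1, hf2⟩
  have h2 : piMap F A B d v ∈ restrictTotalDegree (A × B) F k ⊓ NS F A B (k + E) := hle h1
  rw [hv] at h2
  exact h2.2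

/-- Degree-`d` polynomial calculus does not refute the bijection axioms. -/
theorem pc_main (p : ℕ) [CharP F p] (hp : 0 < p) (d : ℕ) (hd : 2 ≤ d) (a0 : A)
    (hA : 2 * (d * 2) + p ^ (d * 2) + 2 * nD p (d * 2) ≤ Fintype.card A)
    (hB : 2 * (d * 2) + p ^ (d * 2) + 2 * nD p (d * 2) ≤ Fintype.card B)
    (hdes : HasDesign F (d + d * rkB p d) A B) :
    ∃ V : Submodule F (MvPolynomial (A × B) F),
      (∀ k f, Ax F A B k f → f ∈ V) ∧
      (∀ f ∈ V, ∀ v : A × B, (X v * f).totalDegree ≤ d → X v * f ∈ V) ∧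
      (1 : MvPolynomial (A × B) F) ∉ V := by
  obtain ⟨E, hE, hst⟩ := exists_stable (F := F) (A := A) (B := B) p hp d a0 hA hB
  refine ⟨restrictTotalDegree (A × B) F d ⊓ NS F A B (d + E), ?_, ?_, ?_⟩
  · intro k f hf
    have hk : f.totalDegree ≤ k ∧ k ≤ 2 := by
      cases hf with
      | bool v =>
        refine ⟨?_, le_rfl⟩
        refine (totalDegree_sub _ _).trans (max_le ?_ ?_)
        · refine (totalDegree_pow _ _).trans ?_
          rw [totalDegree_X]
        · rw [totalDegree_X]; omega
      | row a =>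
        refine ⟨?_, by omega⟩
        refine (totalDegree_sub _ _).trans (max_le (by rw [totalDegree_one]; omega) ?_)
        refine (totalDegree_finsetSum _ _).trans (Finset.sup_le (fun b _ => ?_))
        rw [totalDegree_X]
      | fn a b b' h =>
        refine ⟨?_, le_rfl⟩
        refine (totalDegree_mul _ _).trans ?_
        rw [totalDegree_X, totalDegree_X]
      | inj a a' b h =>
        refine ⟨?_, le_rfl⟩
        refine (totalDegree_mul _ _).trans ?_
        rw [totalDegree_X, totalDegree_X]
      | col b =>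
        refine ⟨?_, by omega⟩
        refine (totalDegree_sub _ _).trans (max_le (by rw [totalDegree_one]; omega) ?_)
        refine (totalDegree_finsetSum _ _).trans (Finset.sup_le (fun b _ => ?_))
        rw [totalDegree_X]
    refine ⟨?_, NS.ax_mem hf (by omega)⟩
    exact (mem_restrictTotalDegree _ _ _).2 (by omega)
  · intro f hf v hdeg
    refine ⟨(mem_restrictTotalDegree _ _ _).2 hdeg, ?_⟩
    by_cases hf0 : f = 0
    · subst hf0
      rw [mul_zero]
      exact Submodule.zero_mem _
    · have h1 : (X v * f).totalDegree = f.totalDegree + 1 := by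
        rw [totalDegree_mul_of_isDomain (X_ne_zero v) hf0, totalDegree_X, add_comm]
      have h2 : f.totalDegree ≤ d - 1 := by omega
      have h3 : f ∈ NS F A B (d - 1 + E) := by
        apply hst (d - 1) (by omega) f h2
        have h4 : d - 1 + E + 1 = d + E := by omega
        rw [h4]
        exact hf.2
      have h5 := NS.mul_X h3 v
      have h6 : d - 1 + E + 1 = d + E := by omega
      rw [h6] at h5
      exact h5
  · intro h1
    exact NS.one_notMem hdes (NS.mono (by omega) h1.2)

end Pool.Agent.H680R2
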